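import Pool.Agent.P.MP_5e02e7_ag.Defs

namespace Pool.Agent.P.MP_5e02e7_ag

open Matrix

/-- rectangular action -/
noncomputable def ract {d m n : ℕ} (g : Fin d → Matrix (Fin m) (Fin n) ℂ)
    (T : (Fin d → Fin n) → ℂ) : (Fin d → Fin m) → ℂ :=
  fun i => ∑ j : Fin d → Fin n, (∏ k, g k (i k) (j k)) * T j

lemma act_eq {d n : ℕ} (g : Fin d → GL (Fin n) ℂ) (T : (Fin d → Fin n) → ℂ) :
    act g T = ract (fun k => (g k : Matrix (Fin n) (Fin n) ℂ)) T := rfl

lemma ract_ract {d l m n : ℕ} (g : Fin d → Matrix (Fin l) (Fin m) ℂ)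
    (h : Fin d → Matrix (Fin m) (Fin n) ℂ) (T : (Fin d → Fin n) → ℂ) :
    ract g (ract h T) = ract (fun k => g k * h k) T := by
  funext i
  simp only [ract, Finset.mul_sum, Matrix.mul_apply]
  rw [Finset.sum_comm]
  refine Finset.sum_congr rfl fun j _ => ?_
  rw [Finset.prod_univ_sum, Fintype.piFinset_univ, Finset.sum_mul]
  refine Finset.sum_congr rfl fun a _ => ?_
  rw [Finset.prod_mul_distrib, mul_assoc]

lemma ract_add {d m n : ℕ} (g : Fin d → Matrix (Fin m) (Fin n) ℂ)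
    (S T : (Fin d → Fin n) → ℂ) : ract g (S + T) = ract g S + ract g T := by
  funext i
  simp [ract, mul_add, Finset.sum_add_distrib]

lemma ract_single {d m n : ℕ} (g : Fin d → Matrix (Fin m) (Fin n) ℂ) (j : Fin d → Fin n)
    (i : Fin d → Fin m) : ract g (Pi.single j 1) i = ∏ k, g k (i k) (j k) := by
  simp only [ract]
  rw [Finset.sum_eq_single j]
  · simp
  · intro b _ hb; simp [hb]
  · simp

lemma ract_one {d n : ℕ} (T : (Fin d → Fin n) → ℂ) :
    ract (fun _ => (1 : Matrix (Fin n) (Fin n) ℂ)) T = T := by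
  funext i
  simp only [ract]
  rw [Finset.sum_eq_single i]
  · simp
  · intro b _ hb
    obtain ⟨k, hk⟩ := Function.ne_iff.1 hb
    refine mul_eq_zero_of_left (Finset.prod_eq_zero (Finset.mem_univ k) ?_) _
    exact Matrix.one_apply_ne hk.symm
  · simp

lemma continuous_ract {d m n : ℕ} (g : Fin d → Matrix (Fin m) (Fin n) ℂ) :
    Continuous (ract g) := by
  refine continuous_pi fun i => ?_
  unfold ract
  fun_prop

lemma zpow_indep (c : ℤ → ℂ) (s : Finset ℤ) (h : ∀ t : ℂˣ, ∑ m ∈ s, c m * (t : ℂ) ^ m = 0) :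
    ∀ m ∈ s, c m = 0 := by
  let χ : ℤ → (ℂˣ →* ℂ) := fun m => (Units.coeHom ℂ).comp (zpowGroupHom m)
  have hχ : ∀ m (t : ℂˣ), χ m t = (t : ℂ) ^ m := fun m t => by simp [χ]
  have hinj : Function.Injective χ := by
    intro a b hab
    have h2 := congrArg (fun f : ℂˣ →* ℂ => f (Units.mk0 2 two_ne_zero)) hab
    simp only [hχ, Units.val_mk0] at h2
    have h3 := congrArg norm h2
    simp only [norm_zpow, Complex.norm_ofNat] at h3
    exact zpow_right_injective₀ (by norm_num) (by norm_num) h3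
  have hli := (linearIndependent_monoidHom ℂˣ ℂ).comp χ hinj
  rw [linearIndependent_iff'] at hli
  apply hli s c
  funext t
  simpa [hχ, Finset.sum_apply] using h t

/-- Weight decomposition of an algebraic one-parameter subgroup of `GL_n`. -/
lemma weight_decomp {n : ℕ} (l : ℂˣ →* GL (Fin n) ℂ)
    (hl : ∀ a b, ∃ c : ℤ →₀ ℂ, ∀ t : ℂˣ,
      (l t : Matrix (Fin n) (Fin n) ℂ) a b = ∑ m ∈ c.support, c m * (t : ℂ) ^ m) :
    ∃ (s : Finset ℤ) (P : ℤ → Matrix (Fin n) (Fin n) ℂ), ∑ m ∈ s, P m = 1 ∧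
      ∀ m ∈ s, ∀ t : ℂˣ, P m * (l t : Matrix (Fin n) (Fin n) ℂ) = ((t : ℂ) ^ m) • P m := by
  choose c hc using hl
  let s : Finset ℤ := Finset.univ.biUnion fun ab : Fin n × Fin n => (c ab.1 ab.2).support
  let P : ℤ → Matrix (Fin n) (Fin n) ℂ := fun m => Matrix.of fun a b => c a b m
  have hP : ∀ t : ℂˣ, (l t : Matrix (Fin n) (Fin n) ℂ) = ∑ m ∈ s, ((t : ℂ) ^ m) • P m := by
    intro t
    ext a b
    rw [hc, Matrix.sum_apply]
    simp only [P, Matrix.smul_apply, Matrix.of_apply, smul_eq_mul, mul_comm]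
    apply Finset.sum_subset
    · intro m hm
      exact Finset.mem_biUnion.2 ⟨(a, b), Finset.mem_univ _, hm⟩
    · intro m _ hm
      simp [Finsupp.notMem_support_iff.1 hm]
  refine ⟨s, P, ?_, ?_⟩
  · have := hP 1
    simpa using this.symm
  · intro m hm t
    ext a b
    have key := zpow_indep (fun m => (P m * (l t : Matrix (Fin n) (Fin n) ℂ)) a b -
      (((t : ℂ) ^ m) • P m) a b) s (by
        intro u
        have h1 : (l u : Matrix (Fin n) (Fin n) ℂ) * (l t : Matrix (Fin n) (Fin n) ℂ) =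
            (l (u * t) : Matrix (Fin n) (Fin n) ℂ) := by simp
        rw [hP u, hP (u * t), Finset.sum_mul] at h1
        have h2 := congrFun (congrFun h1 a) b
        simp only [Matrix.sum_apply, Matrix.smul_mul, Matrix.smul_apply, smul_eq_mul,
          Units.val_mul, mul_zpow] at h2
        simp only [sub_mul, Finset.sum_sub_distrib, Matrix.smul_apply, smul_eq_mul]
        rw [sub_eq_zero]
        convert h2 using 2 <;> ring) m hm
    exact sub_eq_zero.1 key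

/-- Two weight covectors pairing nondegenerately with the first two columns of `h`. -/
lemma exists_eigen (l : ℂˣ →* GL (Fin 3) ℂ)
    (hl : ∀ a b, ∃ c : ℤ →₀ ℂ, ∀ t : ℂˣ,
      (l t : Matrix (Fin 3) (Fin 3) ℂ) a b = ∑ m ∈ c.support, c m * (t : ℂ) ^ m)
    (h : GL (Fin 3) ℂ) :
    ∃ (C : Matrix (Fin 2) (Fin 3) ℂ) (w : Fin 2 → ℤ),
      (∀ t : ℂˣ, C * (l t : Matrix (Fin 3) (Fin 3) ℂ) =
        Matrix.of fun i j => (t : ℂ) ^ (w i) * C i j) ∧
      (C * (h : Matrix (Fin 3) (Fin 3) ℂ)) 0 0 * (C * (h : Matrix (Fin 3) (Fin 3) ℂ)) 1 1 -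
        (C * (h : Matrix (Fin 3) (Fin 3) ℂ)) 0 1 * (C * (h : Matrix (Fin 3) (Fin 3) ℂ)) 1 0 ≠ 0 := by
  obtain ⟨s, P, h1, h2⟩ := weight_decomp l hl
  let Q : ℤ → Matrix (Fin 3) (Fin 3) ℂ := fun m => ((h⁻¹ : GL (Fin 3) ℂ) : Matrix _ _ ℂ) * P m
  have hQ : ∑ m ∈ s, Q m * (h : Matrix (Fin 3) (Fin 3) ℂ) = 1 := by
    rw [← Finset.sum_mul, ← Finset.mul_sum, h1]; simp
  have e : ∀ a b, ∑ m ∈ s, (Q m * (h : Matrix (Fin 3) (Fin 3) ℂ)) a b =
      (1 : Matrix (Fin 3) (Fin 3) ℂ) a b := fun a b => by rw [← hQ, Matrix.sum_apply]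
  have hsum : ∑ m ∈ s, ∑ m' ∈ s,
      ((Q m * (h : Matrix (Fin 3) (Fin 3) ℂ)) 0 0 * (Q m' * (h : Matrix (Fin 3) (Fin 3) ℂ)) 1 1 -
      (Q m * (h : Matrix (Fin 3) (Fin 3) ℂ)) 0 1 * (Q m' * (h : Matrix (Fin 3) (Fin 3) ℂ)) 1 0)
      ≠ 0 := by
    simp only [Finset.sum_sub_distrib, ← Finset.sum_mul_sum, e]
    simp
  obtain ⟨m, hm, hsum⟩ := Finset.exists_ne_zero_of_sum_ne_zero hsum
  obtain ⟨m', hm', hsum⟩ := Finset.exists_ne_zero_of_sum_ne_zero hsum
  have hq : ∀ m ∈ s, ∀ t : ℂˣ,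
      Q m * (l t : Matrix (Fin 3) (Fin 3) ℂ) = ((t : ℂ) ^ m) • Q m := by
    intro m hm t
    simp only [Q]
    rw [Matrix.mul_assoc, h2 m hm, Matrix.mul_smul]
  refine ⟨Matrix.of ![Q m 0, Q m' 1], ![m, m'], fun t => ?_, ?_⟩
  · ext i j
    fin_cases i
    · have := congrFun (congrFun (hq m hm t) 0) j
      simpa [Matrix.mul_apply] using this
    · have := congrFun (congrFun (hq m' hm' t) 1) j
      simpa [Matrix.mul_apply] using this
  · simpa [Matrix.mul_apply] using hsum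

end Pool.Agent.P.MP_5e02e7_ag
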