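import Mathlib

namespace Pool.Agent.P.MP_5e02e7_ag

/-- The action of `(g_1, ..., g_d)` on a tensor of `(ℂ^n)^{⊗ d}` given by its coordinates:
`(g_1 ⊗ ... ⊗ g_d) T`. -/
noncomputable def act {d n : ℕ} (g : Fin d → GL (Fin n) ℂ) (T : (Fin d → Fin n) → ℂ) :
    (Fin d → Fin n) → ℂ :=
  fun i => ∑ j : Fin d → Fin n, (∏ k, (g k : Matrix (Fin n) (Fin n) ℂ) (i k) (j k)) * T j

/-- The unit tensor `I_r = ∑_{a < r} e_a ⊗ ... ⊗ e_a`. -/
noncomputable def unitTensor (d n r : ℕ) : (Fin d → Fin n) → ℂ :=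
  ∑ a : Fin n with a.val < r, Pi.single (fun _ => a) 1

/-- Border subrank. -/
noncomputable def borderSubrank {d n : ℕ} (T : (Fin d → Fin n) → ℂ) : ℕ :=
  sSup {r | r ≤ n ∧ unitTensor d n r ∈ closure (Set.range fun g => act g T)}

/-- Hilbert-Mumford subrank: a one-parameter subgroup is a group homomorphism
`ℂˣ → GL_n(ℂ)^d` whose matrix entries are Laurent polynomials; the limit is allowed to be
any point of the orbit of `I_r`. -/
noncomputable def hmSubrank {d n : ℕ} (T : (Fin d → Fin n) → ℂ) : ℕ :=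
  sSup {r | r ≤ n ∧ ∃ l : ℂˣ →* (Fin d → GL (Fin n) ℂ),
    (∀ k a b, ∃ c : ℤ →₀ ℂ, ∀ t : ℂˣ,
      (l t k : Matrix (Fin n) (Fin n) ℂ) a b = ∑ m ∈ c.support, c m * (t : ℂ) ^ m) ∧
    ∃ h : Fin d → GL (Fin n) ℂ,
      Filter.Tendsto (fun t : ℂˣ => act (l t) T)
        (Filter.comap (fun t : ℂˣ => (t : ℂ)) (nhds 0)) (nhds (act h (unitTensor d n r)))}

end Pool.Agent.P.MP_5e02e7_ag
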