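import Pool.Agent.P.MP_5e02e7_ag.Basic

namespace Pool.Agent.P.MP_5e02e7_ag

/-- four-qubit tensors, curried -/
abbrev Q4 := Fin 2 → Fin 2 → Fin 2 → Fin 2 → ℂ

/-- explicit four by four determinant -/
def det4 (a b c d e f g h i j k l m n o p : ℂ) : ℂ :=
  a * (f * (k * p - l * o) - g * (j * p - l * n) + h * (j * o - k * n))
  - b * (e * (k * p - l * o) - g * (i * p - l * m) + h * (i * o - k * m))
  + c * (e * (j * p - l * n) - f * (i * p - l * m) + h * (i * n - j * m))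
  - d * (e * (j * o - k * n) - f * (i * o - k * m) + g * (i * n - j * m))

def invH (X : Q4) : ℂ :=
  X 0 0 0 0 * X 1 1 1 1 - X 0 0 0 1 * X 1 1 1 0 - X 0 0 1 0 * X 1 1 0 1 + X 0 0 1 1 * X 1 1 0 0
  - X 0 1 0 0 * X 1 0 1 1 + X 0 1 0 1 * X 1 0 1 0 + X 0 1 1 0 * X 1 0 0 1 - X 0 1 1 1 * X 1 0 0 0

def invL (X : Q4) : ℂ :=
  det4 (X 0 0 0 0) (X 0 1 0 0) (X 1 0 0 0) (X 1 1 0 0)
    (X 0 0 0 1) (X 0 1 0 1) (X 1 0 0 1) (X 1 1 0 1)
    (X 0 0 1 0) (X 0 1 1 0) (X 1 0 1 0) (X 1 1 1 0)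
    (X 0 0 1 1) (X 0 1 1 1) (X 1 0 1 1) (X 1 1 1 1)

def invM (X : Q4) : ℂ :=
  det4 (X 0 0 0 0) (X 1 0 0 0) (X 0 0 1 0) (X 1 0 1 0)
    (X 0 0 0 1) (X 1 0 0 1) (X 0 0 1 1) (X 1 0 1 1)
    (X 0 1 0 0) (X 1 1 0 0) (X 0 1 1 0) (X 1 1 1 0)
    (X 0 1 0 1) (X 1 1 0 1) (X 0 1 1 1) (X 1 1 1 1)

def a0 (u v : Fin 2 → ℂ) (X : Q4) : Q4 := fun i j k l => u i * X 0 j k l + v i * X 1 j k l
def a1 (u v : Fin 2 → ℂ) (X : Q4) : Q4 := fun i j k l => u j * X i 0 k l + v j * X i 1 k l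
def a2 (u v : Fin 2 → ℂ) (X : Q4) : Q4 := fun i j k l => u k * X i j 0 l + v k * X i j 1 l
def a3 (u v : Fin 2 → ℂ) (X : Q4) : Q4 := fun i j k l => u l * X i j k 0 + v l * X i j k 1

def dd (u v : Fin 2 → ℂ) : ℂ := u 0 * v 1 - v 0 * u 1

variable (u v : Fin 2 → ℂ) (X : Q4)

lemma H0 : invH (a0 u v X) = dd u v * invH X := by simp only [invH, a0, dd]; ring
lemma H1 : invH (a1 u v X) = dd u v * invH X := by simp only [invH, a1, dd]; ring
lemma H2 : invH (a2 u v X) = dd u v * invH X := by simp only [invH, a2, dd]; ring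
lemma H3 : invH (a3 u v X) = dd u v * invH X := by simp only [invH, a3, dd]; ring
lemma L0 : invL (a0 u v X) = dd u v ^ 2 * invL X := by simp only [invL, det4, a0, dd]; ring
lemma L1 : invL (a1 u v X) = dd u v ^ 2 * invL X := by simp only [invL, det4, a1, dd]; ring
lemma L2 : invL (a2 u v X) = dd u v ^ 2 * invL X := by simp only [invL, det4, a2, dd]; ring
lemma L3 : invL (a3 u v X) = dd u v ^ 2 * invL X := by simp only [invL, det4, a3, dd]; ring
lemma M0 : invM (a0 u v X) = dd u v ^ 2 * invM X := by simp only [invM, det4, a0, dd]; ring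
lemma M1 : invM (a1 u v X) = dd u v ^ 2 * invM X := by simp only [invM, det4, a1, dd]; ring
lemma M2 : invM (a2 u v X) = dd u v ^ 2 * invM X := by simp only [invM, det4, a2, dd]; ring
lemma M3 : invM (a3 u v X) = dd u v ^ 2 * invM X := by simp only [invM, det4, a3, dd]; ring

/-- the GHZ tensor -/
def ghz : Q4 := ![![![![1, 0], ![0, 0]], ![![0, 0], ![0, 0]]],
  ![![![0, 0], ![0, 0]], ![![0, 0], ![0, 1]]]]

lemma ghzH : invH ghz = 1 := by simp [invH, ghz]
lemma ghzL : invL ghz = 0 := by simp [invL, ghz, det4]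
lemma ghzM : invM ghz = 0 := by simp [invM, ghz, det4]

/-- the pencil cut out of the net -/
def pen (p q r : Fin 2 → ℂ) : Q4 :=
  ![![![p, fun l => q l + r l], ![0, r]], ![![q, 0], ![r, p]]]

lemma penH (p q r : Fin 2 → ℂ) : invH (pen p q r) = -2 * dd q r := by
  simp [invH, pen, dd]; ring
lemma penL (p q r : Fin 2 → ℂ) : invL (pen p q r) = dd q r ^ 2 - dd r p * dd p q := by
  simp [invL, pen, dd, det4]; ring
lemma penM (p q r : Fin 2 → ℂ) : invM (pen p q r) = dd r p ^ 2 := by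
  simp [invM, pen, dd, det4]; ring

/-- currying -/
def cur (X : (Fin 4 → Fin 2) → ℂ) : Q4 := fun i j k l => X ![i, j, k, l]

lemma contH : Continuous fun X => invH (cur X) := by unfold invH cur; fun_prop
lemma contL : Continuous fun X => invL (cur X) := by unfold invL cur det4; fun_prop
lemma contM : Continuous fun X => invM (cur X) := by unfold invM cur det4; fun_prop

end Pool.Agent.P.MP_5e02e7_ag
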