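import Pool.Agent.P.MP_5e02e7_ag.Inv

namespace Pool.Agent.P.MP_5e02e7_ag

open Filter Topology

/-- The example. -/
noncomputable def T0 : (Fin 4 → Fin 3) → ℂ :=
  Pi.single ![0, 0, 0, 0] 1 + Pi.single ![1, 1, 1, 0] 1 + Pi.single ![0, 0, 1, 1] 1 +
  Pi.single ![1, 0, 0, 1] 1 + Pi.single ![0, 0, 1, 2] 1 + Pi.single ![0, 1, 1, 2] 1 +
  Pi.single ![1, 1, 0, 2] 1

lemma ract_T0 {m : ℕ} (C : Fin 4 → Matrix (Fin m) (Fin 3) ℂ) (i : Fin 4 → Fin m) :
    ract C T0 i =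
      C 0 (i 0) 0 * C 1 (i 1) 0 * C 2 (i 2) 0 * C 3 (i 3) 0 +
      C 0 (i 0) 1 * C 1 (i 1) 1 * C 2 (i 2) 1 * C 3 (i 3) 0 +
      C 0 (i 0) 0 * C 1 (i 1) 0 * C 2 (i 2) 1 * C 3 (i 3) 1 +
      C 0 (i 0) 1 * C 1 (i 1) 0 * C 2 (i 2) 0 * C 3 (i 3) 1 +
      C 0 (i 0) 0 * C 1 (i 1) 0 * C 2 (i 2) 1 * C 3 (i 3) 2 +
      C 0 (i 0) 0 * C 1 (i 1) 1 * C 2 (i 2) 1 * C 3 (i 3) 2 +
      C 0 (i 0) 1 * C 1 (i 1) 1 * C 2 (i 2) 0 * C 3 (i 3) 2 := by
  simp only [T0, ract_add, Pi.add_apply, ract_single, Fin.prod_univ_four]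
  simp

lemma unit_two : unitTensor 4 3 2 = Pi.single (fun _ => 0) 1 + Pi.single (fun _ => 1) 1 := by
  simp [unitTensor, Finset.sum_filter, Fin.sum_univ_three]

lemma unit_three : unitTensor 4 3 3 =
    Pi.single (fun _ => 0) 1 + Pi.single (fun _ => 1) 1 + Pi.single (fun _ => 2) 1 := by
  simp [unitTensor, Fin.sum_univ_three]

lemma ract_unit_two {m : ℕ} (C : Fin 4 → Matrix (Fin m) (Fin 3) ℂ) (i : Fin 4 → Fin m) :
    ract C (unitTensor 4 3 2) i =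
      C 0 (i 0) 0 * C 1 (i 1) 0 * C 2 (i 2) 0 * C 3 (i 3) 0 +
      C 0 (i 0) 1 * C 1 (i 1) 1 * C 2 (i 2) 1 * C 3 (i 3) 1 := by
  simp only [unit_two, ract_add, Pi.add_apply, ract_single, Fin.prod_univ_four]

/-- column of a matrix -/
def col (C : Matrix (Fin 2) (Fin 3) ℂ) (j : Fin 3) : Fin 2 → ℂ := fun i => C i j

lemma cur_T0 (C : Fin 4 → Matrix (Fin 2) (Fin 3) ℂ) :
    cur (ract C T0) = a0 (col (C 0) 0) (col (C 0) 1) (a1 (col (C 1) 0) (col (C 1) 1)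
      (a2 (col (C 2) 0) (col (C 2) 1) (pen (col (C 3) 0) (col (C 3) 1) (col (C 3) 2)))) := by
  funext i j k l
  simp only [cur, ract_T0, a0, a1, a2, pen]
  simp [col]
  ring

lemma cur_unit (C : Fin 4 → Matrix (Fin 2) (Fin 3) ℂ) :
    cur (ract C (unitTensor 4 3 2)) = a0 (col (C 0) 0) (col (C 0) 1) (a1 (col (C 1) 0) (col (C 1) 1)
      (a2 (col (C 2) 0) (col (C 2) 1) (a3 (col (C 3) 0) (col (C 3) 1) ghz))) := by
  funext i j k l
  simp only [cur, ract_unit_two, a0, a1, a2, a3, ghz, col]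
  simp
  ring

lemma dd_scale (C : Matrix (Fin 2) (Fin 3) ℂ) (s : Fin 2 → ℂ) (a b : Fin 3) :
    dd (col (Matrix.of fun i j => s i * C i j) a) (col (Matrix.of fun i j => s i * C i j) b) =
      s 0 * s 1 * dd (col C a) (col C b) := by
  simp [dd, col]; ring

instance : (comap (fun t : ℂˣ => (t : ℂ)) (𝓝 0)).NeBot := by
  refine comap_neBot fun s hs => ?_
  have : (s ∩ {0}ᶜ).Nonempty := by
    have h := inter_mem_nhdsWithin ({0}ᶜ : Set ℂ) hs
    rw [Set.inter_comm] at h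
    exact Filter.nonempty_of_mem (f := 𝓝[≠] (0 : ℂ)) h
  obtain ⟨x, hx, hx0⟩ := this
  exact ⟨Units.mk0 x hx0, hx⟩

lemma not_hm_two (l : ℂˣ →* (Fin 4 → GL (Fin 3) ℂ))
    (hl : ∀ k a b, ∃ c : ℤ →₀ ℂ, ∀ t : ℂˣ,
      (l t k : Matrix (Fin 3) (Fin 3) ℂ) a b = ∑ m ∈ c.support, c m * (t : ℂ) ^ m)
    (h : Fin 4 → GL (Fin 3) ℂ) :
    ¬ Tendsto (fun t : ℂˣ => act (l t) T0) (comap (fun t : ℂˣ => (t : ℂ)) (𝓝 0))
      (𝓝 (act h (unitTensor 4 3 2))) := by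
  intro hlim
  have := fun k => exists_eigen ((Pi.evalMonoidHom (fun _ : Fin 4 => GL (Fin 3) ℂ) k).comp l)
    (hl k) (h k)
  choose C w hC hne using this
  simp only [MonoidHom.comp_apply, Pi.evalMonoidHom_apply] at hC
  have h1 := ((continuous_ract C).tendsto _).comp hlim
  simp only [Function.comp_def, act_eq, ract_ract, hC] at h1
  have hH := (contH.tendsto _).comp h1
  have hL := (contL.tendsto _).comp h1
  have hM := (contM.tendsto _).comp h1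
  simp only [Function.comp_def, cur_T0, cur_unit, H0, H1, H2, H3, L0, L1, L2, L3, M0, M1, M2, M3,
    penH, penL, penM, ghzH, ghzL, ghzM, mul_zero, mul_one] at hH hL hM
  have sc := fun (t : ℂˣ) (k : Fin 4) => dd_scale (C k) (fun i => (t : ℂ) ^ (w k i))
  simp only [sc] at hH hL hM
  set D : ℂ := dd (col (C 0 * (h 0 : Matrix (Fin 3) (Fin 3) ℂ)) 0)
      (col (C 0 * (h 0 : Matrix (Fin 3) (Fin 3) ℂ)) 1) *
    (dd (col (C 1 * (h 1 : Matrix (Fin 3) (Fin 3) ℂ)) 0)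
      (col (C 1 * (h 1 : Matrix (Fin 3) (Fin 3) ℂ)) 1) *
    (dd (col (C 2 * (h 2 : Matrix (Fin 3) (Fin 3) ℂ)) 0)
      (col (C 2 * (h 2 : Matrix (Fin 3) (Fin 3) ℂ)) 1) *
    dd (col (C 3 * (h 3 : Matrix (Fin 3) (Fin 3) ℂ)) 0)
      (col (C 3 * (h 3 : Matrix (Fin 3) (Fin 3) ℂ)) 1))) with hD
  have hD0 : D ≠ 0 :=
    mul_ne_zero (hne 0) (mul_ne_zero (hne 1) (mul_ne_zero (hne 2) (hne 3)))
  set c0 := dd (col (C 0) 0) (col (C 0) 1)
  set c1 := dd (col (C 1) 0) (col (C 1) 1)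
  set c2 := dd (col (C 2) 0) (col (C 2) 1)
  set x := dd (col (C 3) 1) (col (C 3) 2)
  set y := dd (col (C 3) 2) (col (C 3) 0)
  set z := dd (col (C 3) 0) (col (C 3) 1)
  have eL : D ^ 2 * (x ^ 2 - y * z) = 0 := by
    have a := (hH.pow 2).mul_const (x ^ 2 - y * z)
    have b := hL.const_mul (4 * x ^ 2)
    rw [mul_zero] at b
    refine tendsto_nhds_unique a (b.congr fun t => ?_)
    ring
  have eM : D ^ 2 * y ^ 2 = 0 := by
    have a := (hH.pow 2).mul_const (y ^ 2)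
    have b := hM.const_mul (4 * x ^ 2)
    rw [mul_zero] at b
    refine tendsto_nhds_unique a (b.congr fun t => ?_)
    ring
  have hy : y = 0 := by simpa [hD0] using eM
  have hx : x = 0 := by simpa [hD0, hy] using eL
  simp only [hx, mul_zero] at hH
  exact hD0 (tendsto_nhds_unique hH tendsto_const_nhds)

/-- a flattening determinant -/
noncomputable def flat (X : (Fin 4 → Fin 3) → ℂ) : ℂ :=
  (Matrix.of fun i j : Fin 3 => ∑ k : Fin 3, X ![i, j, k, k]).det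

lemma contFlat : Continuous flat := by
  unfold flat
  simp only [Matrix.det_fin_three, Matrix.of_apply]
  fun_prop

lemma flat_T0 (C : Fin 4 → Matrix (Fin 3) (Fin 3) ℂ) : flat (ract C T0) = 0 := by
  let u : Fin 3 → ℂ := fun j => ∑ k : Fin 3, (C 1 j 0 * C 2 k 0 * C 3 k 0 +
    C 1 j 0 * C 2 k 1 * C 3 k 1 + C 1 j 0 * C 2 k 1 * C 3 k 2 + C 1 j 1 * C 2 k 1 * C 3 k 2)
  let v : Fin 3 → ℂ := fun j => ∑ k : Fin 3, (C 1 j 1 * C 2 k 1 * C 3 k 0 +
    C 1 j 0 * C 2 k 0 * C 3 k 1 + C 1 j 1 * C 2 k 0 * C 3 k 2)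
  have : ∀ i j : Fin 3, ∑ k : Fin 3, ract C T0 ![i, j, k, k] = C 0 i 0 * u j + C 0 i 1 * v j := by
    intro i j
    simp only [u, v, Finset.mul_sum, ← Finset.sum_add_distrib, ract_T0]
    refine Finset.sum_congr rfl fun k _ => ?_
    simp
    ring
  simp only [flat, this, Matrix.det_fin_three, Matrix.of_apply]
  ring

lemma flat_unit : flat (unitTensor 4 3 3) = 1 := by
  have : ∀ i j : Fin 3, ∑ k : Fin 3, unitTensor 4 3 3 ![i, j, k, k] =
      (1 : Matrix (Fin 3) (Fin 3) ℂ) i j := by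
    intro i j
    fin_cases i <;> fin_cases j <;>
      simp [unit_three, Pi.single_apply, funext_iff, Fin.forall_fin_succ]
  simp only [flat, this]
  exact Matrix.det_one

lemma not_hm_three (l : ℂˣ → (Fin 4 → GL (Fin 3) ℂ)) (h : Fin 4 → GL (Fin 3) ℂ) :
    ¬ Tendsto (fun t : ℂˣ => act (l t) T0) (comap (fun t : ℂˣ => (t : ℂ)) (𝓝 0))
      (𝓝 (act h (unitTensor 4 3 3))) := by
  intro hlim
  have h1 := ((continuous_ract fun k => (((h k)⁻¹ : GL (Fin 3) ℂ) :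
    Matrix (Fin 3) (Fin 3) ℂ)).tendsto _).comp hlim
  simp only [Function.comp_def, act_eq, ract_ract, Units.inv_mul, ract_one] at h1
  have h2 := (contFlat.tendsto _).comp h1
  simp only [Function.comp_def, flat_T0, flat_unit] at h2
  exact zero_ne_one (tendsto_nhds_unique tendsto_const_nhds h2)

lemma hm_le : hmSubrank T0 ≤ 1 := by
  apply csSup_le'
  rintro r ⟨hr, l, hl, h, hlim⟩
  by_contra hlt
  have : r = 2 ∨ r = 3 := by omega
  rcases this with rfl | rfl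
  · exact not_hm_two l hl h hlim
  · exact not_hm_three l h hlim

/-- the degenerating family -/
noncomputable def PP (x : ℂ) : Fin 3 → Fin 3 → Fin 3 → Fin 3 → ℂ :=
  ![
    ![
      ![![(1), 0, (-1) * x ^ 6], ![0, (-1) * x ^ 2, 0], ![0, 0, 0]], 
      ![![(1/8) * x ^ 1, (-1/8) * x ^ 2, (-1/4) * x ^ 3 + (-1/8) * x ^ 7], ![(-1/8) * x ^ 2, (1/8) * x ^ 3, (1/8) * x ^ 8], ![0, 0, 0]], 
      ![![0, 0, 0], ![0, 0, 0], ![0, 0, 0]]], 
    ![
      ![![0, (-1) * x ^ 2, 0], ![(-1) * x ^ 2, (2) * x ^ 3, (1) * x ^ 8], ![0, 0, 0]], 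
      ![![(1/8) * x ^ 2, (-1/8) * x ^ 3, (-1/8) * x ^ 8], ![(-1/8) * x ^ 3, (1) + (1/8) * x ^ 4, (1/4) * x ^ 5 + (1/8) * x ^ 9], ![0, 0, 0]], 
      ![![0, 0, 0], ![0, 0, 0], ![0, 0, 0]]], 
    ![
      ![![0, 0, 0], ![0, 0, 0], ![0, 0, 0]], 
      ![![0, 0, 0], ![0, 0, 0], ![0, 0, 0]], 
      ![![0, 0, 0], ![0, 0, 0], ![0, 0, 0]]]]

/-- the matrices of the degeneration -/
noncomputable def gg (x : ℂ) : Fin 4 → Matrix (Fin 3) (Fin 3) ℂ :=
  ![!![1, x ^ 2, 0; x, -x ^ 3, 0; 0, 0, 1],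
    !![0, -1 / (2 * x ^ 6), 0; -1 / (8 * x ^ 5), -1 / (8 * x ^ 9), 0; 0, 0, 1],
    !![1, x ^ 2, 0; x, -x ^ 3, 0; 0, 0, 1],
    !![0, 1, -x ^ 4; -2 * x ^ 3, x, x ^ 5; 0, 0, x ^ 10]]

lemma gg_det (x : ℂ) (hx : x ≠ 0) (k : Fin 4) : (gg x k).det ≠ 0 := by
  fin_cases k
  · have : (gg x 0).det = -2 * x ^ 3 := by simp [gg, Matrix.det_fin_three]; ring
    simp [this, hx]
  · have : (gg x 1).det = -1 / (16 * x ^ 11) := by
      simp [gg, Matrix.det_fin_three]; field_simp; ring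
    simp [this, hx]
  · have : (gg x 2).det = -2 * x ^ 3 := by simp [gg, Matrix.det_fin_three]; ring
    simp [this, hx]
  · have : (gg x 3).det = 2 * x ^ 13 := by simp [gg, Matrix.det_fin_three]; ring
    simp [this, hx]

lemma ract_gg (x : ℂ) (hx : x ≠ 0) :
    ract (gg x) T0 = fun i => PP x (i 0) (i 1) (i 2) (i 3) := by
  funext i
  rw [ract_T0]
  generalize i 0 = a, i 1 = b, i 2 = c, i 3 = d
  fin_cases a <;> fin_cases b <;> fin_cases c <;> fin_cases d <;> simp [gg, PP] <;>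
    field_simp <;> ring

lemma contPP : Continuous fun x => fun i : Fin 4 → Fin 3 => PP x (i 0) (i 1) (i 2) (i 3) := by
  refine continuous_pi fun i => ?_
  generalize i 0 = a, i 1 = b, i 2 = c, i 3 = d
  fin_cases a <;> fin_cases b <;> fin_cases c <;> fin_cases d <;> simp [PP] <;> fun_prop

lemma PP_zero : (fun i : Fin 4 → Fin 3 => PP 0 (i 0) (i 1) (i 2) (i 3)) = unitTensor 4 3 2 := by
  funext i
  have := ract_unit_two (fun _ => (1 : Matrix (Fin 3) (Fin 3) ℂ)) i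
  rw [ract_one] at this
  rw [this]
  generalize i 0 = a, i 1 = b, i 2 = c, i 3 = d
  fin_cases a <;> fin_cases b <;> fin_cases c <;> fin_cases d <;> simp [PP, Matrix.one_apply]

lemma mem_closure_T0 : unitTensor 4 3 2 ∈ closure (Set.range fun g => act g T0) := by
  have h : Tendsto (fun x => fun i : Fin 4 → Fin 3 => PP x (i 0) (i 1) (i 2) (i 3))
      (𝓝[≠] (0 : ℂ)) (𝓝 (unitTensor 4 3 2)) := by
    rw [← PP_zero]
    exact (contPP.tendsto 0).mono_left nhdsWithin_le_nhds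
  refine mem_closure_of_tendsto h ?_
  filter_upwards [self_mem_nhdsWithin] with x hx
  exact ⟨fun k => Matrix.GeneralLinearGroup.mkOfDetNeZero (gg x k) (gg_det x hx k),
    (ract_gg x hx)⟩

lemma two_le_border : 2 ≤ borderSubrank T0 :=
  le_csSup ⟨3, fun _ hr => hr.1⟩ ⟨by norm_num, mem_closure_T0⟩

theorem main : hmSubrank T0 < borderSubrank T0 :=
  lt_of_le_of_lt hm_le (lt_of_lt_of_le (by norm_num) two_le_border)

end Pool.Agent.P.MP_5e02e7_ag
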