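import Pool.Agent.P.MP_5e02e7_ag.Basic

/-! The example of order three and its degeneration to the unit tensor of size four. -/

namespace Pool.Agent.P.MP_5e02e7_ag.T3

open Filter Topology

/-- The example. -/
noncomputable def T0 : (Fin 3 → Fin 5) → ℂ :=
  Pi.single ![0, 1, 0] 1 + Pi.single ![0, 2, 2] 1 + Pi.single ![1, 0, 0] 1 +
  Pi.single ![1, 1, 1] 1 + Pi.single ![2, 0, 1] 1 + Pi.single ![2, 1, 2] 1 +
  Pi.single ![2, 2, 3] 1 + Pi.single ![3, 3, 4] 1 + Pi.single ![3, 2, 3] 1 +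
  Pi.single ![2, 3, 3] 1 + Pi.single ![1, 2, 4] 1

lemma ract_T0 {m : ℕ} (C : Fin 3 → Matrix (Fin m) (Fin 5) ℂ) (i : Fin 3 → Fin m) :
    ract C T0 i =
      C 0 (i 0) 0 * C 1 (i 1) 1 * C 2 (i 2) 0 + C 0 (i 0) 0 * C 1 (i 1) 2 * C 2 (i 2) 2 +
      C 0 (i 0) 1 * C 1 (i 1) 0 * C 2 (i 2) 0 + C 0 (i 0) 1 * C 1 (i 1) 1 * C 2 (i 2) 1 +
      C 0 (i 0) 2 * C 1 (i 1) 0 * C 2 (i 2) 1 + C 0 (i 0) 2 * C 1 (i 1) 1 * C 2 (i 2) 2 +
      C 0 (i 0) 2 * C 1 (i 1) 2 * C 2 (i 2) 3 + C 0 (i 0) 3 * C 1 (i 1) 3 * C 2 (i 2) 4 +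
      C 0 (i 0) 3 * C 1 (i 1) 2 * C 2 (i 2) 3 + C 0 (i 0) 2 * C 1 (i 1) 3 * C 2 (i 2) 3 +
      C 0 (i 0) 1 * C 1 (i 1) 2 * C 2 (i 2) 4 := by
  simp only [T0, ract_add, Pi.add_apply, ract_single, Fin.prod_univ_three]
  simp

lemma unit_four : unitTensor 3 5 4 = Pi.single (fun _ => 0) 1 + Pi.single (fun _ => 1) 1 +
    Pi.single (fun _ => 2) 1 + Pi.single (fun _ => 3) 1 := by
  simp [unitTensor, Finset.sum_filter, Fin.sum_univ_five]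

lemma unit_five : unitTensor 3 5 5 = Pi.single (fun _ => 0) 1 + Pi.single (fun _ => 1) 1 +
    Pi.single (fun _ => 2) 1 + Pi.single (fun _ => 3) 1 + Pi.single (fun _ => 4) 1 := by
  simp [unitTensor, Fin.sum_univ_five]

lemma ract_unit_four {m : ℕ} (C : Fin 3 → Matrix (Fin m) (Fin 5) ℂ) (i : Fin 3 → Fin m) :
    ract C (unitTensor 3 5 4) i =
      C 0 (i 0) 0 * C 1 (i 1) 0 * C 2 (i 2) 0 + C 0 (i 0) 1 * C 1 (i 1) 1 * C 2 (i 2) 1 +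
      C 0 (i 0) 2 * C 1 (i 1) 2 * C 2 (i 2) 2 + C 0 (i 0) 3 * C 1 (i 1) 3 * C 2 (i 2) 3 := by
  simp only [unit_four, ract_add, Pi.add_apply, ract_single, Fin.prod_univ_three]

/-- constant parts of the degeneration -/
noncomputable def RR : Fin 3 → Matrix (Fin 5) (Fin 5) ℂ :=
  ![!![1, 0, 0, 0, 0; 1, 1, 1, 0, 0; -1, 1, -1, 0, 0; 0, 0, 0, 1, 0; 0, 0, 0, 0, 1],
    !![0, 0, 1, 0, 0; 1 / 2, 1 / 2, 0, 0, 0; 1 / 2, -1 / 2, 0, 0, 0; 0, 0, 0, 1, 0; 0, 0, 0, 0, 1],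
    !![0, 0, 1, -1, 0; 1 / 2, 1 / 2, 0, 0, 0; 1 / 2, -1 / 2, 0, 0, 0; 0, 0, 0, 0, 1; 0, 0, 0, 1, 0]]

/-- left diagonal parts -/
noncomputable def uu (x : ℂ) : Fin 3 → Fin 5 → ℂ :=
  ![![x, 1, 1, 1, 1], ![x⁻¹ ^ 2, 1, 1, 1, 1], ![x, 1, 1, 1, x ^ 3]]

/-- right diagonal parts -/
noncomputable def vv (x : ℂ) : Fin 3 → Fin 5 → ℂ :=
  ![![1, x⁻¹ ^ 5, x⁻¹ ^ 10, x⁻¹ ^ 8, 1], ![1, x⁻¹ ^ 5, x⁻¹ ^ 15, x⁻¹ ^ 15, 1],
    ![x ^ 5, x ^ 10, x ^ 15, x ^ 25, x ^ 23]]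

/-- the matrices of the degeneration -/
noncomputable def gg (x : ℂ) (k : Fin 3) : Matrix (Fin 5) (Fin 5) ℂ :=
  Matrix.diagonal (uu x k) * RR k * Matrix.diagonal (vv x k)

lemma RR_det (k : Fin 3) : (RR k).det ≠ 0 := by
  fin_cases k <;> simp [RR, Matrix.det_succ_row_zero, Fin.sum_univ_succ, Fin.succAbove] <;> norm_num

lemma gg_det (x : ℂ) (hx : x ≠ 0) (k : Fin 3) : (gg x k).det ≠ 0 := by
  simp only [gg, Matrix.det_mul, Matrix.det_diagonal]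
  refine mul_ne_zero (mul_ne_zero ?_ (RR_det k)) ?_ <;> fin_cases k <;>
    simp [uu, vv, Fin.prod_univ_five, hx]

/-- the degenerating family -/
noncomputable def PP (x : ℂ) : Fin 5 → Fin 5 → Fin 5 → ℂ :=
  ![![![1, 0, 0, 0, 0], ![0, x / 4, x / 4, 0, 0], ![0, -x / 4, -x / 4, 0, 0], 0, 0],
    ![![0, 0, 0, x, x], ![x / 2, 1, 0, 0, 0], ![-x / 2, 0, 0, 0, 0], ![-x, 0, 0, 0, x ^ 3], 0],
    ![![0, 0, 0, x, -x], ![-x / 2, 0, 0, 0, 0], ![x / 2, 0, 1, 0, 0], ![x, 0, 0, 0, -x ^ 3], 0],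
    ![![-x, 0, 0, 0, x ^ 3], 0, 0, ![0, 0, 0, 1, 0], 0],
    0]

lemma ract_gg (x : ℂ) (hx : x ≠ 0) : ract (gg x) T0 = fun i => PP x (i 0) (i 1) (i 2) := by
  funext i
  rw [ract_T0]
  simp only [gg, Matrix.mul_diagonal, Matrix.diagonal_mul]
  generalize i 0 = a, i 1 = b, i 2 = c
  fin_cases a <;> fin_cases b <;> fin_cases c <;> simp [uu, vv, RR, PP] <;> field_simp <;> ring

lemma contPP : Continuous fun x => fun i : Fin 3 → Fin 5 => PP x (i 0) (i 1) (i 2) := by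
  refine continuous_pi fun i => ?_
  generalize i 0 = a, i 1 = b, i 2 = c
  fin_cases a <;> fin_cases b <;> fin_cases c <;> simp [PP] <;> fun_prop

lemma PP_zero : (fun i : Fin 3 → Fin 5 => PP 0 (i 0) (i 1) (i 2)) = unitTensor 3 5 4 := by
  funext i
  have := ract_unit_four (fun _ => (1 : Matrix (Fin 5) (Fin 5) ℂ)) i
  rw [ract_one] at this
  rw [this]
  generalize i 0 = a, i 1 = b, i 2 = c
  fin_cases a <;> fin_cases b <;> fin_cases c <;> simp [PP, Matrix.one_apply]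

lemma mem_closure_T0 : unitTensor 3 5 4 ∈ closure (Set.range fun g => act g T0) := by
  have h : Tendsto (fun x => fun i : Fin 3 → Fin 5 => PP x (i 0) (i 1) (i 2))
      (𝓝[≠] (0 : ℂ)) (𝓝 (unitTensor 3 5 4)) := by
    rw [← PP_zero]
    exact (contPP.tendsto 0).mono_left nhdsWithin_le_nhds
  refine mem_closure_of_tendsto h ?_
  filter_upwards [self_mem_nhdsWithin] with x hx
  exact ⟨fun k => Matrix.GeneralLinearGroup.mkOfDetNeZero (gg x k) (gg_det x hx k),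
    (ract_gg x hx)⟩

lemma four_le_border : 4 ≤ borderSubrank T0 :=
  le_csSup ⟨5, fun _ hr => hr.1⟩ ⟨by norm_num, mem_closure_T0⟩

end Pool.Agent.P.MP_5e02e7_ag.T3
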