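import Pool.Agent.P.MP_5e02e7_ag.T3Tab

/-! A verified dynamic programme that evaluates tableau polynomials on sparse tensors. -/

namespace Pool.Agent.P.MP_5e02e7_ag.T3

/-- tables: key, positive part, negative part -/
inductive Tb : Type
  | nil : Tb
  | cons (k p q : ℕ) (t : Tb) : Tb

/-- loop states -/
structure Lp : Type where
  l : Tb
  a : Tb
  o : Tb

noncomputable def sem (Φ : ℕ → ℂ) : Tb → ℂ
  | .nil => 0
  | .cons k p q t => ((p : ℂ) - q) * Φ k + sem Φ t

noncomputable def frc {α : Type} (n : ℕ) (k : ℕ → α) : α :=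
  Nat.rec (k Nat.zero) (fun m _ => k (Nat.succ m)) n

lemma frc_eq {α : Type} (n : ℕ) (k : ℕ → α) : frc n k = k n := by cases n <;> rfl

/-- parity of the number of passed entries -/
def sg (s1 m1 s2 m2 s3 m3 k : ℕ) : Bool :=
  Nat.beq (Nat.mod (Nat.add (Nat.add
    (Nat.shiftRight 27030 (Nat.mod (Nat.shiftRight k s1) m1))
    (Nat.shiftRight 27030 (Nat.mod (Nat.shiftRight k s2) m2)))
    (Nat.shiftRight 27030 (Nat.mod (Nat.shiftRight k s3) m3))) 2) 0

noncomputable def stA (a o : Tb) : Lp :=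
  Tb.rec (motive := fun _ => Lp) (Lp.mk .nil .nil o)
    (fun k p q t _ => Lp.mk .nil t (.cons k p q o)) a

noncomputable def stP (s : Bool) (k' p q : ℕ) (t a o : Tb) : Lp :=
  Bool.rec (Lp.mk t a (.cons k' q p o)) (Lp.mk t a (.cons k' p q o)) s

noncomputable def stG (k2 : ℕ) (t t2 o : Tb) (p3 q3 : ℕ) : Lp :=
  Bool.rec (Lp.mk t t2 (.cons k2 p3 q3 o)) (Lp.mk t t2 o) (Nat.beq p3 q3)

noncomputable def stF (k2 p2 q2 p q : ℕ) (t t2 o : Tb) : Lp :=
  frc (Nat.add p2 p) fun p3 => frc (Nat.add q2 q) (stG k2 t t2 o p3)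

noncomputable def stE (s : Bool) (k2 p2 q2 p q : ℕ) (t t2 o : Tb) : Lp :=
  Bool.rec (stF k2 p2 q2 q p t t2 o) (stF k2 p2 q2 p q t t2 o) s

noncomputable def stD (s d : Bool) (l a o : Tb) (p q : ℕ) (t : Tb) (k' k2 p2 q2 : ℕ) (t2 : Tb) :
    Lp :=
  Bool.rec
    (Bool.rec (Lp.mk l t2 (.cons k2 p2 q2 o)) (stP s k' p q t a o)
      (Bool.rec (Nat.ble k2 k') (Nat.ble k' k2) d))
    (stE s k2 p2 q2 p q t t2 o) (Nat.beq k' k2)

noncomputable def stC (s d : Bool) (l a o : Tb) (p q : ℕ) (t : Tb) (k' : ℕ) : Lp :=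
  Tb.rec (motive := fun _ => Lp) (stP s k' p q t .nil o)
    (fun k2 p2 q2 t2 _ => stD s d l a o p q t k' k2 p2 q2 t2) a

noncomputable def stB (bits : ℕ) (σ : ℕ → Bool) (d : Bool) (l a o : Tb) (k p q : ℕ) (t : Tb) : Lp :=
  Bool.rec (Lp.mk t a o) (frc (Nat.lor k bits) (stC (σ k) d l a o p q t))
    (Nat.beq (Nat.land k bits) 0)

noncomputable def step (bits : ℕ) (σ : ℕ → Bool) (d : Bool) (s : Lp) : Lp :=
  Lp.rec (fun l a o => Tb.rec (motive := fun _ => Lp) (stA a o)
    (fun k p q t _ => stB bits σ d l a o k p q t) l) s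

/-- the quantity preserved by the loop -/
noncomputable def inv (Ψ Φ : ℕ → ℂ) (s : Lp) : ℂ := sem Ψ s.l + sem Φ s.a + sem Φ s.o

/-- relation between the value before and after one box is filled -/
def Link (bits : ℕ) (σ : ℕ → Bool) (Ψ Φ : ℕ → ℂ) : Prop :=
  ∀ k, Ψ k = if Nat.land k bits = 0 then (if σ k then Φ (Nat.lor k bits) else -Φ (Nat.lor k bits))
    else 0

lemma inv_step {bits : ℕ} {σ : ℕ → Bool} {Ψ Φ : ℕ → ℂ} (h : Link bits σ Ψ Φ) (d : Bool) (s : Lp) :
    inv Ψ Φ (step bits σ d s) = inv Ψ Φ s := by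
  obtain ⟨l, a, o⟩ := s
  cases l with
  | nil => cases a <;> simp [step, stA, inv, sem]; ring
  | cons k p q t =>
    have hk := h k
    simp only [step, stB, stC, stD, stE, stF, stG, stP, frc_eq]
    cases e0 : Nat.beq (Nat.land k bits) 0 with
    | false =>
      have : Nat.land k bits ≠ 0 := Nat.ne_of_beq_eq_false e0
      rw [if_neg this] at hk
      simp [inv, sem, hk]
    | true =>
      have : Nat.land k bits = 0 := Nat.eq_of_beq_eq_true e0
      rw [if_pos this] at hk
      cases a with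
      | nil => cases e1 : σ k <;> simp [inv, sem, hk, e1] <;> ring
      | cons k2 p2 q2 t2 =>
        simp only
        cases e2 : Nat.beq (Nat.lor k bits) k2 with
        | false =>
          simp only
          generalize (Bool.rec (Nat.ble k2 (Nat.lor k bits)) (Nat.ble (Nat.lor k bits) k2) d : Bool) = z
          cases z
          · simp [inv, sem]; ring
          · cases e1 : σ k <;> simp [inv, sem, hk, e1] <;> ring
        | true =>
          have e3 : Nat.lor k bits = k2 := Nat.eq_of_beq_eq_true e2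
          rw [e3] at hk
          simp only
          cases e1 : σ k
          · simp only
            cases e4 : Nat.beq (Nat.add p2 q) (Nat.add q2 p)
            · simp [inv, sem, hk, e1]; ring
            · have e5 : (p2 : ℂ) + q = q2 + p := by exact_mod_cast Nat.eq_of_beq_eq_true e4
              simp only [inv, sem, hk, e1]
              simp only [Bool.false_eq_true, if_false]
              linear_combination (-Φ k2) * e5
          · simp only
            cases e4 : Nat.beq (Nat.add p2 p) (Nat.add q2 q)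
            · simp [inv, sem, hk, e1]; ring
            · have e5 : (p2 : ℂ) + p = q2 + q := by exact_mod_cast Nat.eq_of_beq_eq_true e4
              simp only [inv, sem, hk, e1]
              simp only [if_true]
              linear_combination (-Φ k2) * e5

noncomputable def dbl (g : Lp → Lp) (s : Lp) : Lp :=
  Lp.rec (fun l a o => g (Lp.mk l a o)) (g s)

lemma dbl_inv {f : Lp → Lp} {I : Lp → ℂ} (h : ∀ s, I (f s) = I s) (s : Lp) :
    I (dbl f s) = I s := (h _).trans (h s)

noncomputable def chk (g : Lp → Lp) (s : Lp) : Lp :=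
  Lp.rec (fun l a _ => Tb.rec (motive := fun _ => Lp)
    (Tb.rec (motive := fun _ => Lp) s (fun _ _ _ _ _ => dbl g s) a) (fun _ _ _ _ _ => dbl g s) l) s

/-- run a loop by repeated doubling -/
noncomputable def iter (f : Lp → Lp) (n : ℕ) : Lp → Lp :=
  Nat.rec (dbl (dbl (dbl f))) (fun _ g => chk g) n

lemma iter_inv {f : Lp → Lp} {I : Lp → ℂ} (h : ∀ s, I (f s) = I s) (n : ℕ) (s : Lp) :
    I (iter f n s) = I s := by
  induction n generalizing s with
  | zero => exact dbl_inv (dbl_inv (dbl_inv h)) s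
  | succ n ih =>
    obtain ⟨l, a, o⟩ := s
    have e := dbl_inv ih ⟨l, a, o⟩
    cases l with
    | nil =>
      cases a with
      | nil => rfl
      | cons => exact e
    | cons => exact e

noncomputable def app (a o : Tb) : Tb := Tb.rec o (fun k p q _ r => .cons k p q r) a

lemma sem_app (Φ : ℕ → ℂ) (a o : Tb) : sem Φ (app a o) = sem Φ a + sem Φ o := by
  induction a with
  | nil => simp [app, sem]
  | cons k p q t ih =>
    have : app (.cons k p q t) o = .cons k p q (app t o) := rfl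
    rw [this, sem, sem, ih, add_assoc]

noncomputable def slow (bits : ℕ) (σ : ℕ → Bool) (l o : Tb) : Tb :=
  Tb.rec o (fun k p q _ r => if Nat.land k bits = 0 then
    (if σ k then .cons (Nat.lor k bits) p q r else .cons (Nat.lor k bits) q p r) else r) l

lemma sem_slow {bits : ℕ} {σ : ℕ → Bool} {Ψ Φ : ℕ → ℂ} (h : Link bits σ Ψ Φ) (l o : Tb) :
    sem Φ (slow bits σ l o) = sem Ψ l + sem Φ o := by
  induction l with
  | nil => simp [slow, sem]
  | cons k p q t ih =>
    have : slow bits σ (.cons k p q t) o = if Nat.land k bits = 0 then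
      (if σ k then .cons (Nat.lor k bits) p q (slow bits σ t o)
        else .cons (Nat.lor k bits) q p (slow bits σ t o)) else slow bits σ t o := rfl
    rw [this, sem, h k]
    split_ifs <;> simp only [sem, ih] <;> ring

/-- add the contribution of one term of the tensor -/
noncomputable def loop (bits : ℕ) (σ : ℕ → Bool) (d : Bool) (l a : Tb) : Tb :=
  Lp.rec (fun l' a' o' => slow bits σ l' (app a' o')) (iter (step bits σ d) 14 (Lp.mk l a .nil))

lemma sem_loop {bits : ℕ} {σ : ℕ → Bool} {Ψ Φ : ℕ → ℂ} (h : Link bits σ Ψ Φ) (d : Bool)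
    (l a : Tb) : sem Φ (loop bits σ d l a) = sem Ψ l + sem Φ a := by
  have := iter_inv (inv_step h d) 14 (Lp.mk l a .nil)
  unfold loop
  generalize iter (step bits σ d) 14 (Lp.mk l a .nil) = s at this
  obtain ⟨l', a', o'⟩ := s
  simp only [inv, sem, add_zero] at this
  simp only [sem_slow h, sem_app]
  linear_combination this

/-- force a table -/
noncomputable def frT {α : Type} (t : Tb) (k : Tb → α) : α :=
  Tb.rec (k .nil) (fun a b c u _ => k (.cons a b c u)) t

lemma frT_eq {α : Type} (t : Tb) (k : Tb → α) : frT t k = k t := by cases t <;> rfl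

/-- the bits set by a term in a box -/
def bitsOf (b e : ℕ × ℕ × ℕ) : ℕ :=
  2 ^ (5 * b.1 + e.1) ||| 2 ^ (5 * b.2.1 + e.2.1) ||| 2 ^ (5 * b.2.2 + e.2.2)

noncomputable def term (b e : ℕ × ℕ × ℕ) (d : Bool) (l a : Tb) : Tb :=
  frc (bitsOf b e) fun bits => frc (5 * b.1) fun s1 => frc (2 ^ e.1) fun m1 =>
    frc (5 * b.2.1) fun s2 => frc (2 ^ e.2.1) fun m2 => frc (5 * b.2.2) fun s3 =>
      frc (2 ^ e.2.2) fun m3 => loop bits (sg s1 m1 s2 m2 s3 m3) d l a

noncomputable def go (b : ℕ × ℕ × ℕ) (L : List (ℕ × ℕ × ℕ)) : Tb → Tb → Bool → Tb → Tb × Bool :=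
  List.rec (fun _ _ d a => (a, d))
    (fun e _ r x y d a => frT (term b e d x a) fun a' =>
      Bool.rec (r y x true a') (r y x false a') d) L

/-- the sign function of a term in a box -/
def sgOf (b e : ℕ × ℕ × ℕ) : ℕ → Bool :=
  sg (5 * b.1) (2 ^ e.1) (5 * b.2.1) (2 ^ e.2.1) (5 * b.2.2) (2 ^ e.2.2)

lemma sem_go (b : ℕ × ℕ × ℕ) (L : List (ℕ × ℕ × ℕ)) (Ψ : ℕ × ℕ × ℕ → ℕ → ℂ) (Φ : ℕ → ℂ)
    (h : ∀ e ∈ L, Link (bitsOf b e) (sgOf b e) (Ψ e) Φ) (x y : Tb)
    (hxy : ∀ F, sem F y = sem F x) (d : Bool) (a : Tb) :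
    sem Φ (go b L x y d a).1 = (L.map fun e => sem (Ψ e) x).sum + sem Φ a := by
  induction L generalizing x y d a with
  | nil => simp [go]
  | cons e L ih =>
    have e1 : go b (e :: L) x y d a = go b L y x (!d) (term b e d x a) := by
      cases d <;> exact frT_eq _ _
    have e2 : term b e d x a = loop (bitsOf b e) (sgOf b e) d x a := by
      simp only [term, frc_eq]; rfl
    rw [e1, ih (fun e he => h e (List.mem_cons_of_mem _ he)) y x (fun F => (hxy F).symm), e2,
      sem_loop (h e List.mem_cons_self)]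
    simp only [hxy, List.map_cons, List.sum_cons]
    ring

lemma link_zero (F : ℕ → ℂ) : Link 0 (fun _ => true) F F := fun k => by
  simp [Nat.land, Nat.lor]

noncomputable def run (L : List (ℕ × ℕ × ℕ)) (bs : List (ℕ × ℕ × ℕ)) : Tb → Bool → Tb :=
  List.rec (fun x _ => x)
    (fun b _ r x d => frT (loop 0 (fun _ => true) d .nil x) fun y =>
      Prod.rec (motive := fun _ => Tb) (fun a d' => r a d') (go b L x y d .nil)) bs

lemma sem_sum (L : List (ℕ × ℕ × ℕ)) (Ψ : ℕ × ℕ × ℕ → ℕ → ℂ) (x : Tb) :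
    sem (fun k => (L.map fun e => Ψ e k).sum) x = (L.map fun e => sem (Ψ e) x).sum := by
  induction x with
  | nil => simp [sem]
  | cons k p q t ih => simp only [sem, ih, List.sum_map_add, List.sum_map_mul_left]

lemma sem_run (L : List (ℕ × ℕ × ℕ)) (W : List (ℕ × ℕ × ℕ) → ℕ → ℂ) (ok : ℕ × ℕ × ℕ → Prop)
    (hW : ∀ b bs, ok b → ∃ Ψ : ℕ × ℕ × ℕ → ℕ → ℂ,
      (∀ e ∈ L, Link (bitsOf b e) (sgOf b e) (Ψ e) (W bs)) ∧
      ∀ k, W (b :: bs) k = (L.map fun e => Ψ e k).sum)
    (bs : List (ℕ × ℕ × ℕ)) (hb : ∀ b ∈ bs, ok b) (x : Tb) (d : Bool) :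
    sem (W bs) x = sem (W []) (run L bs x d) := by
  induction bs generalizing x d with
  | nil => rfl
  | cons b bs ih =>
    obtain ⟨Ψ, h1, h2⟩ := hW b bs (hb b List.mem_cons_self)
    have e1 : run L (b :: bs) x d = run L bs (go b L x (loop 0 (fun _ => true) d .nil x) d .nil).1
        (go b L x (loop 0 (fun _ => true) d .nil x) d .nil).2 :=
      (frT_eq (loop 0 (fun _ => true) d .nil x) fun y =>
        Prod.rec (motive := fun _ => Tb) (fun a d' => run L bs a d') (go b L x y d .nil)).trans rfl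
    rw [e1, ← ih (fun b hb' => hb b (List.mem_cons_of_mem _ hb')), sem_go b L Ψ _ h1 x _
      (fun F => by rw [sem_loop (link_zero F)]; simp [sem]), funext h2, sem_sum]
    simp [sem]

end Pool.Agent.P.MP_5e02e7_ag.T3
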