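import Pool.Agent.P.MP_5e02e7_ag.T3EvS

/-! Values of tableau polynomials on the example and on the unit tensor. -/

namespace Pool.Agent.P.MP_5e02e7_ag.T3

def ba : List (ℕ × ℕ × ℕ) :=
  [(0, 4, 11), (2, 4, 11), (0, 4, 9), (0, 7, 11), (2, 7, 11), (2, 7, 9), (2, 7, 10), (1, 4, 10), (0, 6, 8), (1, 6, 10), (1, 6, 9), (1, 5, 8), (3, 6, 8), (3, 5, 9), (3, 5, 10), (3, 5, 8)]

def nTa : Tb :=
  (.cons 558300650769202671 472 0
    (.cons 567170411070471663 90 0
    (.cons 567307850023943663 0 236
    (.cons 567409005093699055 0 108
    (.cons 571389237186248175 488 0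
    (.cons 571670712162958831 0 244
    (.cons 571798255511780847 1500 0
    (.cons 571807051604803055 0 750
    (.cons 575044013836975599 0 54
    (.cons 846393587967442415 0 132
    (.cons 846531026920914415 0 236
    (.cons 846632181990669807 78 0
    (.cons 855119312245472751 0 30
    (.cons 855400787222183407 36 0
    (.cons 855538226175655407 0 84
    (.cons 855540425198910959 323 0
    (.cons 855608594919833071 111 0
    (.cons 855630585152388591 0 42
    (.cons 855639381245410799 36 0
    (.cons 859619613337959919 0 244
    (.cons 859901088314670575 0 36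
    (.cons 859903287337926127 538 0
    (.cons 860028631663492591 0 750
    (.cons 860037427756514799 120 0
    (.cons 860107796500692463 1009 0
    (.cons 862152888128355823 150 0
    (.cons 862289227570200047 749 0
    (.cons 862992915011976687 66 0
    (.cons 863265593895665135 0 84
    (.cons 863274389988687343 36 0
    (.cons 990224002531704303 576 0
    (.cons 990505477508414959 0 288
    (.cons 990633020857236975 648 0
    (.cons 990641816950259183 0 324
    (.cons 999231201786445295 0 288
    (.cons 999512676763155951 120 0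
    (.cons 999514875786411503 0 3
    (.cons 999640220111977967 0 324
    (.cons 999649016205000175 0 36
    (.cons 999719384949177839 280 0
    (.cons 1003721607274282479 444 0
    (.cons 1003730403367304687 0 222
    (.cons 1004003082250993135 0 222
    (.cons 1004011878344015343 0 84
    (.cons 1006263678157700591 407 0
    (.cons 1071570270801083887 0 171
    (.cons 1071706610242928111 312 0
    (.cons 1076069472381943279 783 0
    (.cons 1098587470518795759 0 18
    (.cons 1107313194796826095 0 108
    (.cons 1107585873680514543 54 0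
    (.cons 1107594669773536751 36 0
    .nil))))))))))))))))))))))))))))))))))))))))))))))))))))

lemma cTa : check LT ba nTa = true := by decide +kernel

lemma eTa {X : Fin 4 → Fin 4 → Fin 4 → ℂ} (A B C : ℕ → V)
    (hX : ∀ i j k, X i j k = (LT.map fun e => A e.1 i * B e.2.1 j * C e.2.2 k).sum) :
    tab 12 X ba (fun _ => []) = mn A 15 ^ 4 * mn B 15 ^ 4 * ((4128) * mn C 15 * mn C 23 * mn C 27 * mn C 27 + (288) * mn C 15 * mn C 23 * mn C 23 * mn C 30 + (-4128) * mn C 15 * mn C 15 * mn C 27 * mn C 27 + (-4488) * mn C 23 * mn C 23 * mn C 27 * mn C 29 + (-144) * mn C 23 * mn C 23 * mn C 23 * mn C 30) := by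
  refine (tab_eval (δ := 4) A B C LT (by decide) hX ba (by decide) nTa cTa).trans ?_
  simp only [nTa, sem, Finset.prod_range_succ, Finset.prod_range_zero, mask, vec, Nat.reduceMul,
    Nat.reduceShiftRight, Nat.reduceMod, Nat.reduceLT, if_true, if_false]
  push_cast
  ring

def nIa : Tb :=
  .nil

lemma cIa : check LI ba nIa = true := by decide +kernel

lemma eIa {X : Fin 4 → Fin 4 → Fin 4 → ℂ} (A B C : ℕ → V)
    (hX : ∀ i j k, X i j k = (LI.map fun e => A e.1 i * B e.2.1 j * C e.2.2 k).sum) :
    tab 12 X ba (fun _ => []) = mn A 15 ^ 4 * mn B 15 ^ 4 * (0) := by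
  refine (tab_eval (δ := 4) A B C LI (by decide) hX ba (by decide) nIa cIa).trans ?_
  simp only [nIa, sem, Finset.prod_range_succ, Finset.prod_range_zero, mask, vec, Nat.reduceMul,
    Nat.reduceShiftRight, Nat.reduceMod, Nat.reduceLT, if_true, if_false]
  push_cast
  ring

end Pool.Agent.P.MP_5e02e7_ag.T3
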