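import Pool.Agent.P.MP_5e02e7_ag.T3EvA

/-! Values of tableau polynomials on the example and on the unit tensor. -/

namespace Pool.Agent.P.MP_5e02e7_ag.T3

def bb : List (ℕ × ℕ × ℕ) :=
  [(1, 7, 10), (0, 7, 10), (1, 7, 9), (3, 7, 9), (1, 6, 9), (3, 6, 9), (3, 6, 10), (0, 6, 8), (3, 5, 8), (0, 5, 8), (0, 5, 11), (2, 5, 11), (1, 4, 11), (2, 4, 8), (2, 4, 10), (2, 4, 11)]

def nTb : Tb :=
  (.cons 558300650769202671 56 0
    (.cons 567170411070471663 80 0
    (.cons 567307850023943663 0 28
    (.cons 567409005093699055 72 0
    (.cons 571389237186248175 288 0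
    (.cons 571670712162958831 0 144
    (.cons 571798255511780847 56 0
    (.cons 571807051604803055 0 28
    (.cons 575044013836975599 0 56
    (.cons 846393587967442415 56 0
    (.cons 846531026920914415 0 28
    (.cons 846632181990669807 72 0
    (.cons 855119312245472751 0 40
    (.cons 855400787222183407 0 48
    (.cons 855538226175655407 0 34
    (.cons 855540425198910959 171 0
    (.cons 855608594919833071 101 0
    (.cons 855630585152388591 0 48
    (.cons 855639381245410799 0 48
    (.cons 859619613337959919 0 144
    (.cons 859901088314670575 54 0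
    (.cons 859903287337926127 123 0
    (.cons 860028631663492591 0 28
    (.cons 860037427756514799 0 20
    (.cons 860107796500692463 292 0
    (.cons 862152888128355823 0 59
    (.cons 862289227570200047 84 0
    (.cons 862992915011976687 136 0
    (.cons 863265593895665135 16 0
    (.cons 863274389988687343 0 48
    (.cons 990224002531704303 104 0
    (.cons 990505477508414959 0 52
    (.cons 990633020857236975 80 0
    (.cons 990641816950259183 0 40
    (.cons 999231201786445295 0 52
    (.cons 999512676763155951 0 20
    (.cons 999514875786411503 134 0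
    (.cons 999640220111977967 0 40
    (.cons 999649016205000175 54 0
    (.cons 999719384949177839 0 93
    (.cons 1003721607274282479 8 0
    (.cons 1003730403367304687 0 4
    (.cons 1004003082250993135 0 4
    (.cons 1004011878344015343 0 34
    (.cons 1006263678157700591 355 0
    (.cons 1071570270801083887 34 0
    (.cons 1071706610242928111 0 275
    (.cons 1076069472381943279 541 0
    (.cons 1098587470518795759 0 32
    (.cons 1107585873680514543 128 0
    (.cons 1107594669773536751 0 48
    .nil)))))))))))))))))))))))))))))))))))))))))))))))))))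

lemma cTb : check LT bb nTb = true := by decide +kernel

lemma eTb {X : Fin 4 → Fin 4 → Fin 4 → ℂ} (A B C : ℕ → V)
    (hX : ∀ i j k, X i j k = (LT.map fun e => A e.1 i * B e.2.1 j * C e.2.2 k).sum) :
    tab 12 X bb (fun _ => []) = mn A 15 ^ 4 * mn B 15 ^ 4 * ((592) * mn C 15 * mn C 23 * mn C 27 * mn C 27 + (-1408) * mn C 23 * mn C 23 * mn C 27 * mn C 29 + (-384) * mn C 15 * mn C 23 * mn C 23 * mn C 30 + (192) * mn C 23 * mn C 23 * mn C 23 * mn C 30 + (-592) * mn C 15 * mn C 15 * mn C 27 * mn C 27) := by
  refine (tab_eval (δ := 4) A B C LT (by decide) hX bb (by decide) nTb cTb).trans ?_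
  simp only [nTb, sem, Finset.prod_range_succ, Finset.prod_range_zero, mask, vec, Nat.reduceMul,
    Nat.reduceShiftRight, Nat.reduceMod, Nat.reduceLT, if_true, if_false]
  push_cast
  ring

def nIb : Tb :=
  .nil

lemma cIb : check LI bb nIb = true := by decide +kernel

lemma eIb {X : Fin 4 → Fin 4 → Fin 4 → ℂ} (A B C : ℕ → V)
    (hX : ∀ i j k, X i j k = (LI.map fun e => A e.1 i * B e.2.1 j * C e.2.2 k).sum) :
    tab 12 X bb (fun _ => []) = mn A 15 ^ 4 * mn B 15 ^ 4 * (0) := by
  refine (tab_eval (δ := 4) A B C LI (by decide) hX bb (by decide) nIb cIb).trans ?_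
  simp only [nIb, sem, Finset.prod_range_succ, Finset.prod_range_zero, mask, vec, Nat.reduceMul,
    Nat.reduceShiftRight, Nat.reduceMod, Nat.reduceLT, if_true, if_false]
  push_cast
  ring

end Pool.Agent.P.MP_5e02e7_ag.T3
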