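import Pool.Agent.P.MP_5e02e7_ag.T3EvB

/-! Values of tableau polynomials on the example and on the unit tensor. -/

namespace Pool.Agent.P.MP_5e02e7_ag.T3

def bc : List (ℕ × ℕ × ℕ) :=
  [(1, 6, 8), (1, 6, 10), (3, 6, 10), (3, 6, 9), (1, 7, 10), (3, 5, 10), (1, 5, 9), (3, 5, 9), (0, 7, 9), (2, 5, 11), (0, 7, 8), (2, 7, 11), (0, 4, 8), (0, 4, 11), (2, 4, 8), (2, 4, 11)]

def nTc : Tb :=
  (.cons 558300650769202671 0 244
    (.cons 567170411070471663 0 100
    (.cons 567307850023943663 122 0
    (.cons 567409005093699055 162 0
    (.cons 571389237186248175 0 564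
    (.cons 571670712162958831 282 0
    (.cons 571798255511780847 0 48
    (.cons 571807051604803055 24 0
    (.cons 575044013836975599 0 206
    (.cons 846393587967442415 0 6
    (.cons 846531026920914415 122 0
    (.cons 846632181990669807 0 108
    (.cons 855119312245472751 0 38
    (.cons 855400787222183407 72 0
    (.cons 855538226175655407 0 32
    (.cons 855540425198910959 0 19
    (.cons 855608594919833071 0 283
    (.cons 855630585152388591 0 198
    (.cons 855639381245410799 72 0
    (.cons 859619613337959919 282 0
    (.cons 859901088314670575 8 0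
    (.cons 859903287337926127 0 43
    (.cons 860028631663492591 24 0
    (.cons 860037427756514799 24 0
    (.cons 860107796500692463 126 0
    (.cons 862152888128355823 0 75
    (.cons 862289227570200047 0 426
    (.cons 862992915011976687 0 108
    (.cons 863265593895665135 170 0
    (.cons 863274389988687343 72 0
    (.cons 990224002531704303 48 0
    (.cons 990505477508414959 0 24
    (.cons 990633020857236975 0 260
    (.cons 990641816950259183 130 0
    (.cons 999231201786445295 0 24
    (.cons 999512676763155951 24 0
    (.cons 999514875786411503 0 138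
    (.cons 999640220111977967 130 0
    (.cons 999649016205000175 8 0
    (.cons 999719384949177839 61 0
    (.cons 1003721607274282479 0 756
    (.cons 1003730403367304687 378 0
    (.cons 1004003082250993135 378 0
    (.cons 1004011878344015343 0 32
    (.cons 1006263678157700591 0 3
    (.cons 1071570270801083887 0 258
    (.cons 1071706610242928111 0 707
    (.cons 1076069472381943279 661 0
    (.cons 1098587470518795759 0 30
    (.cons 1107313194796826095 2 0
    (.cons 1107585873680514543 0 116
    (.cons 1107594669773536751 72 0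
    .nil))))))))))))))))))))))))))))))))))))))))))))))))))))

lemma cTc : check LT bc nTc = true := by decide +kernel

lemma eTc {X : Fin 4 → Fin 4 → Fin 4 → ℂ} (A B C : ℕ → V)
    (hX : ∀ i j k, X i j k = (LT.map fun e => A e.1 i * B e.2.1 j * C e.2.2 k).sum) :
    tab 12 X bc (fun _ => []) = mn A 15 ^ 4 * mn B 15 ^ 4 * ((-1824) * mn C 15 * mn C 23 * mn C 27 * mn C 27 + (1104) * mn C 23 * mn C 23 * mn C 27 * mn C 29 + (576) * mn C 15 * mn C 23 * mn C 23 * mn C 30 + (1824) * mn C 15 * mn C 15 * mn C 27 * mn C 27 + (-288) * mn C 23 * mn C 23 * mn C 23 * mn C 30) := by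
  refine (tab_eval (δ := 4) A B C LT (by decide) hX bc (by decide) nTc cTc).trans ?_
  simp only [nTc, sem, Finset.prod_range_succ, Finset.prod_range_zero, mask, vec, Nat.reduceMul,
    Nat.reduceShiftRight, Nat.reduceMod, Nat.reduceLT, if_true, if_false]
  push_cast
  ring

def nIc : Tb :=
  .nil

lemma cIc : check LI bc nIc = true := by decide +kernel

lemma eIc {X : Fin 4 → Fin 4 → Fin 4 → ℂ} (A B C : ℕ → V)
    (hX : ∀ i j k, X i j k = (LI.map fun e => A e.1 i * B e.2.1 j * C e.2.2 k).sum) :
    tab 12 X bc (fun _ => []) = mn A 15 ^ 4 * mn B 15 ^ 4 * (0) := by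
  refine (tab_eval (δ := 4) A B C LI (by decide) hX bc (by decide) nIc cIc).trans ?_
  simp only [nIc, sem, Finset.prod_range_succ, Finset.prod_range_zero, mask, vec, Nat.reduceMul,
    Nat.reduceShiftRight, Nat.reduceMod, Nat.reduceLT, if_true, if_false]
  push_cast
  ring

end Pool.Agent.P.MP_5e02e7_ag.T3
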