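import Pool.Agent.P.MP_5e02e7_ag.T3Link

/-! Values of tableau polynomials on the example and on the unit tensor. -/

namespace Pool.Agent.P.MP_5e02e7_ag.T3

def b2 : List (ℕ × ℕ × ℕ) :=
  [(0, 2, 4), (0, 2, 5), (0, 3, 4), (0, 3, 5), (1, 2, 5), (1, 2, 4), (1, 3, 5), (1, 3, 4)]

def nT2 : Tb :=
  (.cons 532135407 0 96
    (.cons 800570863 48 0
    (.cons 922205679 0 96
    (.cons 930594287 48 0
    .nil))))

lemma cT2 : check LT b2 nT2 = true := by decide +kernel

lemma eT2 {X : Fin 4 → Fin 4 → Fin 4 → ℂ} (A B C : ℕ → V)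
    (hX : ∀ i j k, X i j k = (LT.map fun e => A e.1 i * B e.2.1 j * C e.2.2 k).sum) :
    tab 6 X b2 (fun _ => []) = mn A 15 ^ 2 * mn B 15 ^ 2 * ((-96) * mn C 23 * mn C 27 + (192) * mn C 15 * mn C 27) := by
  refine (tab_eval (δ := 2) A B C LT (by decide) hX b2 (by decide) nT2 cT2).trans ?_
  simp only [nT2, sem, Finset.prod_range_succ, Finset.prod_range_zero, mask, vec, Nat.reduceMul,
    Nat.reduceShiftRight, Nat.reduceMod, Nat.reduceLT, if_true, if_false]
  push_cast
  ring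

def nI2 : Tb :=
  (.cons 519552495 0 24
    .nil)

lemma cI2 : check LI b2 nI2 = true := by decide +kernel

lemma eI2 {X : Fin 4 → Fin 4 → Fin 4 → ℂ} (A B C : ℕ → V)
    (hX : ∀ i j k, X i j k = (LI.map fun e => A e.1 i * B e.2.1 j * C e.2.2 k).sum) :
    tab 6 X b2 (fun _ => []) = mn A 15 ^ 2 * mn B 15 ^ 2 * ((24) * mn C 15 * mn C 15) := by
  refine (tab_eval (δ := 2) A B C LI (by decide) hX b2 (by decide) nI2 cI2).trans ?_
  simp only [nI2, sem, Finset.prod_range_succ, Finset.prod_range_zero, mask, vec, Nat.reduceMul,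
    Nat.reduceShiftRight, Nat.reduceMod, Nat.reduceLT, if_true, if_false]
  push_cast
  ring

def b3 : List (ℕ × ℕ × ℕ) :=
  [(0, 3, 7), (0, 3, 6), (1, 3, 6), (1, 3, 7), (1, 4, 6), (0, 4, 7), (0, 4, 8), (1, 5, 8), (2, 4, 8), (2, 5, 6), (2, 5, 7), (2, 5, 8)]

def nT3 : Tb :=
  (.cons 17314606464495 24 0
    (.cons 17514322443759 24 0
    (.cons 25835821579759 24 0
    (.cons 26110699486703 0 24
    (.cons 26245990956527 0 24
    (.cons 26301825531375 24 0
    (.cons 26310415465967 0 24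
    (.cons 30506598514159 0 24
    (.cons 30639742500335 0 24
    (.cons 32426448895471 24 0
    (.cons 32692736867823 24 0
    (.cons 32701326802415 0 24
    .nil))))))))))))

lemma cT3 : check LT b3 nT3 = true := by decide +kernel

lemma eT3 {X : Fin 4 → Fin 4 → Fin 4 → ℂ} (A B C : ℕ → V)
    (hX : ∀ i j k, X i j k = (LT.map fun e => A e.1 i * B e.2.1 j * C e.2.2 k).sum) :
    tab 9 X b3 (fun _ => []) = mn A 15 ^ 3 * mn B 15 ^ 3 * ((72) * mn C 23 * mn C 23 * mn C 29 + (-144) * mn C 15 * mn C 23 * mn C 29 + (72) * mn C 23 * mn C 27 * mn C 27) := by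
  refine (tab_eval (δ := 3) A B C LT (by decide) hX b3 (by decide) nT3 cT3).trans ?_
  simp only [nT3, sem, Finset.prod_range_succ, Finset.prod_range_zero, mask, vec, Nat.reduceMul,
    Nat.reduceShiftRight, Nat.reduceMod, Nat.reduceLT, if_true, if_false]
  push_cast
  ring

def nI3 : Tb :=
  .nil

lemma cI3 : check LI b3 nI3 = true := by decide +kernel

lemma eI3 {X : Fin 4 → Fin 4 → Fin 4 → ℂ} (A B C : ℕ → V)
    (hX : ∀ i j k, X i j k = (LI.map fun e => A e.1 i * B e.2.1 j * C e.2.2 k).sum) :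
    tab 9 X b3 (fun _ => []) = mn A 15 ^ 3 * mn B 15 ^ 3 * (0) := by
  refine (tab_eval (δ := 3) A B C LI (by decide) hX b3 (by decide) nI3 cI3).trans ?_
  simp only [nI3, sem, Finset.prod_range_succ, Finset.prod_range_zero, mask, vec, Nat.reduceMul,
    Nat.reduceShiftRight, Nat.reduceMod, Nat.reduceLT, if_true, if_false]
  push_cast
  ring

end Pool.Agent.P.MP_5e02e7_ag.T3
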