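import Pool.Agent.P.MP_5e02e7_ag.T3DP

/-! The dynamic programme computes the tableau polynomial. -/

namespace Pool.Agent.P.MP_5e02e7_ag.T3

/-- the set bits below five -/
def lst (M : ℕ) : List ℕ := (List.range 5).filter fun v => M.testBit v

def mask (N c : ℕ) : ℕ := (N >>> (5 * c)) % 32

def interp (f : ℕ → ℕ → V) (N : ℕ) : St := fun c => (lst (mask N c)).map (f c)

/-- sorted insertion -/
def ins (v : ℕ) : List ℕ → List ℕ
  | [] => [v]
  | a :: l => if v < a then v :: a :: l else a :: ins v l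

/-- parity of the number of passed entries -/
def pas (v : ℕ) : List ℕ → Bool
  | [] => true
  | a :: l => if v < a then true else !pas v l

lemma D_ins (g : ℕ → V) (v : ℕ) (l : List ℕ) (pre : List V) :
    D (pre ++ g v :: l.map g) = (if pas v l then 1 else -1) * D (pre ++ (ins v l).map g) := by
  induction l generalizing pre with
  | nil => simp [pas, ins]
  | cons a l ih =>
    by_cases h : v < a
    · simp [pas, ins, h]
    · have := ih (pre ++ [g a])
      simp only [List.append_assoc, List.singleton_append] at this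
      rw [List.map_cons, D_swap, this]
      simp only [pas, ins, if_neg h, List.map_cons]
      cases pas v l <;> simp

lemma D_mem (g : ℕ → V) (v : ℕ) (l : List ℕ) (h : v ∈ l) (pre : List V) :
    D (pre ++ g v :: l.map g) = 0 := by
  induction l generalizing pre with
  | nil => simp at h
  | cons a l ih =>
    rw [List.map_cons]
    rcases List.mem_cons.1 h with rfl | h
    · exact D_dup _ _ _
    · have := ih h (pre ++ [g a])
      simp only [List.append_assoc, List.singleton_append] at this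
      rw [D_swap, this, neg_zero]

lemma fin_check : ∀ M < 32, ∀ v < 5, (M.testBit v = true → v ∈ lst M) ∧
    (M.testBit v = false → ins v (lst M) = lst (M ||| 2 ^ v) ∧
      (pas v (lst M) = true ↔ (27030 >>> (M % 2 ^ v)) % 2 = 0)) := by decide +kernel

lemma testBit_mask (N c v : ℕ) : (mask N c).testBit v = (decide (v < 5) && N.testBit (5 * c + v)) := by
  rw [mask, show 32 = 2 ^ 5 from rfl, Nat.testBit_mod_two_pow, Nat.testBit_shiftRight]

lemma mask_lt (N c : ℕ) : mask N c < 32 := Nat.mod_lt _ (by norm_num)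

lemma mask_or_self (N c v : ℕ) (hv : v < 5) :
    mask (N ||| 2 ^ (5 * c + v)) c = mask N c ||| 2 ^ v := by
  refine Nat.eq_of_testBit_eq fun i => ?_
  simp only [testBit_mask, Nat.testBit_or, Nat.testBit_two_pow]
  by_cases h : v = i
  · subst h; simp [hv]
  · simp [h]

lemma mask_or_ne (N c v c' : ℕ) (hv : v < 5) (hc : c' ≠ c) :
    mask (N ||| 2 ^ (5 * c + v)) c' = mask N c' := by
  refine Nat.eq_of_testBit_eq fun i => ?_
  simp only [testBit_mask, Nat.testBit_or, Nat.testBit_two_pow]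
  by_cases h : i < 5
  · have : ¬ 5 * c + v = 5 * c' + i := by omega
    simp [this]
  · simp [h]

/-- parity lookup -/
def par (N c v : ℕ) : ℕ := 27030 >>> ((N >>> (5 * c)) % 2 ^ v)

lemma par_eq (N c v : ℕ) (hv : v < 5) : par N c v = 27030 >>> (mask N c % 2 ^ v) := by
  rw [par, mask, Nat.mod_mod_of_dvd]
  exact (show 32 = 2 ^ 5 from rfl) ▸ pow_dvd_pow 2 hv.le

lemma one_push {n : ℕ} {Φ : St → ℂ} (h : Compat n Φ) (f : ℕ → ℕ → V) (N : ℕ) {c v : ℕ}
    (hc : c < n) (hv : v < 5) : Φ (push (interp f N) c (f c v)) =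
      if N.testBit (5 * c + v) then 0 else
        (if par N c v % 2 = 0 then 1 else -1) * Φ (interp f (N ||| 2 ^ (5 * c + v))) := by
  have hk := fin_check _ (mask_lt N c) v hv
  rw [testBit_mask, decide_eq_true hv, Bool.true_and] at hk
  split_ifs with h1 h2
  · have := h Empty c (fun _ => 0) (push (interp f N) c (f c v)) (fun _ => push (interp f N) c (f c v))
      hc ⟨fun _ _ _ => rfl, fun pre => by simpa [push, interp] using D_mem (f c) v _ (hk.1 h1) pre⟩
    simpa using this
  all_goals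
    have h3 := hk.2 (by simpa using h1)
    rw [← par_eq N c v hv] at h3
    have := h Unit c (fun _ => if pas v (lst (mask N c)) then 1 else -1)
      (push (interp f N) c (f c v)) (fun _ => interp f (N ||| 2 ^ (5 * c + v))) hc
      ⟨fun _ x hx => by simp [push, interp, Function.update_of_ne hx, mask_or_ne N c v x hv hx],
        fun pre => by
          simpa [push, interp, mask_or_self N c v hv, ← h3.1] using D_ins (f c) v _ pre⟩
    simpa [h3.2, h2] using this

/-- the vectors attached to the columns -/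
def vec (δ : ℕ) (A B C : ℕ → V) (c : ℕ) : ℕ → V := if c < δ then A else if c < 2 * δ then B else C

/-- admissible boxes -/
def OkB (δ : ℕ) (b : ℕ × ℕ × ℕ) : Prop :=
  b.1 < δ ∧ δ ≤ b.2.1 ∧ b.2.1 < 2 * δ ∧ 2 * δ ≤ b.2.2 ∧ b.2.2 < 3 * δ

instance (δ : ℕ) (b : ℕ × ℕ × ℕ) : Decidable (OkB δ b) := by unfold OkB; infer_instance

lemma land_zero (k a b c : ℕ) : Nat.land k (2 ^ a ||| 2 ^ b ||| 2 ^ c) = 0 ↔
    k.testBit a = false ∧ k.testBit b = false ∧ k.testBit c = false := by
  change k &&& _ = 0 ↔ _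
  constructor
  · intro h
    have := fun i => congrArg (fun x => Nat.testBit x i) h
    simp only [Nat.testBit_and, Nat.testBit_or, Nat.testBit_two_pow, Nat.zero_testBit] at this
    exact ⟨by simpa using this a, by simpa using this b, by simpa using this c⟩
  · rintro ⟨h1, h2, h3⟩
    refine Nat.eq_of_testBit_eq fun i => ?_
    simp only [Nat.testBit_and, Nat.testBit_or, Nat.testBit_two_pow, Nat.zero_testBit]
    by_cases e1 : a = i
    · subst e1; simp [h1]
    by_cases e2 : b = i
    · subst e2; simp [h2]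
    by_cases e3 : c = i
    · subst e3; simp [h3]
    simp [e1, e2, e3]

lemma link_term {δ : ℕ} {Φ : St → ℂ} (h : Compat (3 * δ) Φ) (f : ℕ → ℕ → V) {b e : ℕ × ℕ × ℕ}
    (hb : OkB δ b) (he : e.1 < 5 ∧ e.2.1 < 5 ∧ e.2.2 < 5) :
    Link (bitsOf b e) (sgOf b e) (fun k => Φ (push (push (push (interp f k) b.1 (f b.1 e.1))
      b.2.1 (f b.2.1 e.2.1)) b.2.2 (f b.2.2 e.2.2))) fun k => Φ (interp f k) := by
  obtain ⟨c1, c2, c3⟩ := b
  obtain ⟨v1, v2, v3⟩ := e
  obtain ⟨b1, b2, b3, b4, b5⟩ := hb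
  obtain ⟨e1, e2, e3⟩ := he
  simp only at b1 b2 b3 b4 b5 e1 e2 e3
  intro k
  simp only [bitsOf, land_zero]
  rw [one_push ((h.push c3 _).push c2 _) f k (by omega) e1,
    one_push (h.push c3 _) f _ (by omega) e2, one_push h f _ (by omega) e3]
  have n1 : ¬ 5 * c1 + v1 = 5 * c2 + v2 := by omega
  have n2 : ¬ 5 * c1 + v1 = 5 * c3 + v3 := by omega
  have n3 : ¬ 5 * c2 + v2 = 5 * c3 + v3 := by omega
  have p2 : par (k ||| 2 ^ (5 * c1 + v1)) c2 v2 = par k c2 v2 := by
    rw [par_eq _ _ _ e2, par_eq _ _ _ e2, mask_or_ne _ _ _ _ e1 (by omega)]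
  have p3 : par (k ||| 2 ^ (5 * c1 + v1) ||| 2 ^ (5 * c2 + v2)) c3 v3 = par k c3 v3 := by
    rw [par_eq _ _ _ e3, par_eq _ _ _ e3, mask_or_ne _ _ _ _ e2 (by omega),
      mask_or_ne _ _ _ _ e1 (by omega)]
  have s0 : sgOf (c1, c2, c3) (v1, v2, v3) k = true ↔
      (par k c1 v1 + par k c2 v2 + par k c3 v3) % 2 = 0 := Nat.beq_eq ▸ Iff.rfl
  have l0 : Nat.lor k (2 ^ (5 * c1 + v1) ||| 2 ^ (5 * c2 + v2) ||| 2 ^ (5 * c3 + v3)) =
      k ||| 2 ^ (5 * c1 + v1) ||| 2 ^ (5 * c2 + v2) ||| 2 ^ (5 * c3 + v3) := by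
    change k ||| _ = _
    simp only [Nat.or_assoc]
  simp only [p2, p3, s0, l0, Nat.testBit_or, Nat.testBit_two_pow, n1, n2, n3, decide_false,
    Bool.or_false]
  generalize Φ _ = z
  cases k.testBit (5 * c1 + v1) <;> cases k.testBit (5 * c2 + v2) <;>
    cases k.testBit (5 * c3 + v3) <;> simp only [Bool.false_eq_true, Bool.true_eq_false,
      if_true, if_false, and_true, and_false, mul_zero]
  split_ifs <;> first | ring1 | omega

/-- the checker -/
noncomputable def isNil (t : Tb) : Bool := Tb.rec true (fun _ _ _ _ _ => false) t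

noncomputable def check (L bs : List (ℕ × ℕ × ℕ)) (neg : Tb) : Bool :=
  isNil (loop 0 (fun _ => true) true (run L bs (.cons 0 1 0 .nil) true) neg)

lemma interp_zero (f : ℕ → ℕ → V) : interp f 0 = fun _ => [] := by
  funext c
  simp [interp, mask, lst]

/-- the minor selected by a mask -/
def mn (g : ℕ → V) (M : ℕ) : ℂ := D ((lst M).map g)

theorem tab_eval {δ : ℕ} {X : Fin 4 → Fin 4 → Fin 4 → ℂ} (A B C : ℕ → V) (L : List (ℕ × ℕ × ℕ))
    (hL : ∀ e ∈ L, e.1 < 5 ∧ e.2.1 < 5 ∧ e.2.2 < 5)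
    (hX : ∀ i j k, X i j k = (L.map fun e => A e.1 i * B e.2.1 j * C e.2.2 k).sum)
    (bs : List (ℕ × ℕ × ℕ)) (hb : ∀ b ∈ bs, OkB δ b) (neg : Tb) (h : check L bs neg = true) :
    tab (3 * δ) X bs (fun _ => []) =
      -sem (fun k => ∏ c ∈ Finset.range (3 * δ), mn (vec δ A B C c) (mask k c)) neg := by
  change _ = -sem (fun k => ∏ c ∈ Finset.range (3 * δ), D (interp (vec δ A B C) k c)) neg
  have := sem_run L (fun bs k => tab (3 * δ) X bs (interp (vec δ A B C) k)) (OkB δ)
    (fun b bs hb => ⟨_, fun e he => link_term (compat_tab _ X bs) (vec δ A B C) hb (hL e he),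
      fun k => by
        obtain ⟨b1, b2, b3, b4, b5⟩ := hb
        have v1 : vec δ A B C b.1 = A := if_pos b1
        have v2 : vec δ A B C b.2.1 = B := (if_neg (by omega)).trans (if_pos b3)
        have v3 : vec δ A B C b.2.2 = C := (if_neg (by omega)).trans (if_neg (by omega))
        simp only [v1, v2, v3]
        exact tab_step A B C L hX b (by omega) (by omega) b5 bs _⟩) bs hb (.cons 0 1 0 .nil) true
  simp only [sem, interp_zero, tab] at this
  have h2 := sem_loop (link_zero fun k => ∏ c ∈ Finset.range (3 * δ), D (interp (vec δ A B C) k c))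
    true (run L bs (.cons 0 1 0 .nil) true) neg
  unfold check at h
  generalize loop 0 (fun _ => true) true (run L bs (.cons 0 1 0 .nil) true) neg = t at h h2
  cases t with
  | nil =>
    simp only [sem] at h2
    push_cast at this
    linear_combination this - h2
  | cons => exact absurd h (by simp [isNil])

/-- the support of the example -/
def LT : List (ℕ × ℕ × ℕ) :=
  [(0, 1, 0), (0, 2, 2), (1, 0, 0), (1, 1, 1), (2, 0, 1), (2, 1, 2), (2, 2, 3), (3, 3, 4),
    (3, 2, 3), (2, 3, 3), (1, 2, 4)]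

/-- the support of the unit tensor -/
def LI : List (ℕ × ℕ × ℕ) := [(0, 0, 0), (1, 1, 1), (2, 2, 2), (3, 3, 3)]

end Pool.Agent.P.MP_5e02e7_ag.T3
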