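import Pool.Agent.P.MP_5e02e7_ag.T3EvC
import Pool.Agent.P.MP_5e02e7_ag.T3Border

/-! No one-parameter subgroup carries the example to a unit tensor of size four or five. -/

namespace Pool.Agent.P.MP_5e02e7_ag.T3

open Filter Topology

lemma D_scale (s : V) (l : List V) :
    D (l.map fun a i => s i * a i) = s 0 * s 1 * s 2 * s 3 * D l := by
  by_cases h : l.length = 4
  · rcases l with _ | ⟨a, _ | ⟨b, _ | ⟨c, _ | ⟨d, _ | ⟨e, l⟩⟩⟩⟩⟩ <;>
      first | (exfalso; simp at h; done) | (simp [D, dt]; ring)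
  · rw [D_len (by simpa using h), D_len h, mul_zero]

lemma mn_scale (s : V) (g : ℕ → V) (M : ℕ) :
    mn (fun v i => s i * g v i) M = s 0 * s 1 * s 2 * s 3 * mn g M := by
  rw [mn, mn, ← D_scale, List.map_map]
  rfl

lemma algebra (z0 z1 z2 z3 z4 : ℂ) (h2 : -96 * z3 * z2 + 192 * z4 * z2 ≠ 0)
    (h3 : 72 * z3 * z3 * z1 + -144 * z4 * z3 * z1 + 72 * z3 * z2 * z2 = 0)
    (ha : 4128 * z4 * z3 * z2 * z2 + 288 * z4 * z3 * z3 * z0 + -4128 * z4 * z4 * z2 * z2 +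
      -4488 * z3 * z3 * z2 * z1 + -144 * z3 * z3 * z3 * z0 = 0)
    (hb : 592 * z4 * z3 * z2 * z2 + -1408 * z3 * z3 * z2 * z1 + -384 * z4 * z3 * z3 * z0 +
      192 * z3 * z3 * z3 * z0 + -592 * z4 * z4 * z2 * z2 = 0)
    (hc : -1824 * z4 * z3 * z2 * z2 + 1104 * z3 * z3 * z2 * z1 + 576 * z4 * z3 * z3 * z0 +
      1824 * z4 * z4 * z2 * z2 + -288 * z3 * z3 * z3 * z0 = 0) : False := by
  have hPQ : z2 ^ 2 * z4 * (z3 - z4) = z1 * z2 * z3 ^ 2 := by
    linear_combination (2 * ha - hc) / 10080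
  have hQ : z1 * z2 * z3 ^ 2 = 0 := by
    linear_combination (4 * ha + 3 * hb - 18288 * hPQ) / (-3888)
  have n2 : z2 ≠ 0 := by rintro rfl; simp at h2
  have e3 : z3 ^ 2 * z2 ^ 3 = 0 := by
    linear_combination (z3 * z2 / 72) * h3 - (z3 - 2 * z4) * hQ
  have z30 : z3 = 0 := by simpa [n2] using e3
  subst z30
  have e4 : z2 ^ 2 * z4 ^ 2 = 0 := by linear_combination -hPQ
  have z40 : z4 = 0 := by simpa [n2] using e4
  subst z40
  simp at h2

lemma zero_of_lim {τ : Type*} {F : Filter τ} [F.NeBot] {σ : τ → ℂ} {a b c : ℂ} {n : ℕ}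
    (hc : c ≠ 0) (h2 : Tendsto (fun t => σ t ^ 2 * a) F (𝓝 c))
    (hn : Tendsto (fun t => σ t ^ n * b) F (𝓝 0)) : b = 0 := by
  have e1 := (h2.pow n).mul_const (b ^ 2)
  have e2 := (hn.pow 2).mul_const (a ^ n)
  have e : c ^ n * b ^ 2 = 0 ^ 2 * a ^ n :=
    tendsto_nhds_unique e1 (e2.congr fun t => by ring)
  simpa [hc] using e

/-- The invariant-theoretic core. -/
lemma no_limit {τ : Type*} {F : Filter τ} [F.NeBot] (s1 s2 s3 : τ → V) (A B C P Q R : ℕ → V)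
    (hP : mn P 15 ≠ 0) (hQ : mn Q 15 ≠ 0) (hR : mn R 15 ≠ 0)
    (X : τ → Fin 4 → Fin 4 → Fin 4 → ℂ) (Y : Fin 4 → Fin 4 → Fin 4 → ℂ)
    (hX : ∀ t i j k, X t i j k = (LT.map fun e =>
      (s1 t i * A e.1 i) * (s2 t j * B e.2.1 j) * (s3 t k * C e.2.2 k)).sum)
    (hY : ∀ i j k, Y i j k = (LI.map fun e => P e.1 i * Q e.2.1 j * R e.2.2 k).sum) :
    ¬ Tendsto X F (𝓝 Y) := by
  intro h
  have lim := fun n bs => ((tab_cont n bs fun _ => []).tendsto Y).comp h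
  have h2 := lim 6 b2
  have h3 := lim 9 b3
  have ha := lim 12 ba
  have hb := lim 12 bb
  have hc := lim 12 bc
  have x2 := fun t => eT2 (fun v i => s1 t i * A v i) (fun v i => s2 t i * B v i)
    (fun v i => s3 t i * C v i) (hX t)
  have x3 := fun t => eT3 (fun v i => s1 t i * A v i) (fun v i => s2 t i * B v i)
    (fun v i => s3 t i * C v i) (hX t)
  have xa := fun t => eTa (fun v i => s1 t i * A v i) (fun v i => s2 t i * B v i)
    (fun v i => s3 t i * C v i) (hX t)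
  have xb := fun t => eTb (fun v i => s1 t i * A v i) (fun v i => s2 t i * B v i)
    (fun v i => s3 t i * C v i) (hX t)
  have xc := fun t => eTc (fun v i => s1 t i * A v i) (fun v i => s2 t i * B v i)
    (fun v i => s3 t i * C v i) (hX t)
  simp only [Function.comp_def, x2, eI2 P Q R hY, mn_scale] at h2
  simp only [Function.comp_def, x3, eI3 P Q R hY, mn_scale, mul_zero] at h3
  simp only [Function.comp_def, xa, eIa P Q R hY, mn_scale, mul_zero] at ha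
  simp only [Function.comp_def, xb, eIb P Q R hY, mn_scale, mul_zero] at hb
  simp only [Function.comp_def, xc, eIc P Q R hY, mn_scale, mul_zero] at hc
  clear x2 x3 xa xb xc lim hX hY h
  generalize mn A 15 = a at *
  generalize mn B 15 = b at *
  generalize mn C 30 = z0 at *
  generalize mn C 29 = z1 at *
  generalize mn C 27 = z2 at *
  generalize mn C 23 = z3 at *
  generalize mn C 15 = z4 at *
  set σ : τ → ℂ := fun t => (s1 t 0 * s1 t 1 * s1 t 2 * s1 t 3) *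
    (s2 t 0 * s2 t 1 * s2 t 2 * s2 t 3) * (s3 t 0 * s3 t 1 * s3 t 2 * s3 t 3) with hσ
  have hc0 : mn P 15 ^ 2 * mn Q 15 ^ 2 * (24 * mn R 15 * mn R 15) ≠ 0 := by simp [hP, hQ, hR]
  have g2 : Tendsto (fun t => σ t ^ 2 * (a ^ 2 * b ^ 2 * (-96 * z3 * z2 + 192 * z4 * z2))) F _ :=
    h2.congr fun t => by simp only [hσ]; ring
  have n2 : a ^ 2 * b ^ 2 * (-96 * z3 * z2 + 192 * z4 * z2) ≠ 0 := by
    intro e
    simp only [e, mul_zero] at g2
    exact hc0 (tendsto_nhds_unique g2 tendsto_const_nhds)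
  have na : a ≠ 0 := by rintro rfl; simp at n2
  have nb : b ≠ 0 := by rintro rfl; simp at n2
  have key : ∀ (n : ℕ) (p : ℂ), Tendsto (fun t => σ t ^ n * (a ^ n * b ^ n * p)) F (𝓝 0) → p = 0 :=
    fun n p hp => by simpa [na, nb] using zero_of_lim hc0 g2 hp
  exact algebra z0 z1 z2 z3 z4 (right_ne_zero_of_mul n2)
    (key 3 _ (h3.congr fun t => by simp only [hσ]; ring))
    (key 4 _ (ha.congr fun t => by simp only [hσ]; ring))
    (key 4 _ (hb.congr fun t => by simp only [hσ]; ring))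
    (key 4 _ (hc.congr fun t => by simp only [hσ]; ring))

/-- columns of a four by five matrix -/
def colv (M : Matrix (Fin 4) (Fin 5) ℂ) : ℕ → V := fun v i => M i (Fin.ofNat 5 v)

/-- the leading minor as a function of the rows -/
def dr (a b c d : Fin 5 → ℂ) : ℂ :=
  dt ![a 0, b 0, c 0, d 0] ![a 1, b 1, c 1, d 1] ![a 2, b 2, c 2, d 2] ![a 3, b 3, c 3, d 3]

lemma mn_colv (M : Matrix (Fin 4) (Fin 5) ℂ) : mn (colv M) 15 = dr (M 0) (M 1) (M 2) (M 3) := by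
  have : lst 15 = [0, 1, 2, 3] := by decide
  simp [mn, this, D, dr, dt, colv, Fin.ofNat]

lemma pick {s : Finset ℤ} (r : ℤ → Fin 5 → ℂ) (φ : (Fin 5 → ℂ) → ℂ)
    (hφ : ∀ x y, φ (x + y) = φ x + φ y) (h : φ (∑ m ∈ s, r m) ≠ 0) : ∃ m ∈ s, φ (r m) ≠ 0 := by
  have := map_sum (AddMonoidHom.mk' φ hφ) r s
  simp only [AddMonoidHom.mk'_apply] at this
  rw [this] at h
  exact Finset.exists_ne_zero_of_sum_ne_zero h

/-- Four weight covectors pairing nondegenerately with the first four columns of `h`. -/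
lemma exists_eigen4 (l : ℂˣ →* GL (Fin 5) ℂ)
    (hl : ∀ a b, ∃ c : ℤ →₀ ℂ, ∀ t : ℂˣ,
      (l t : Matrix (Fin 5) (Fin 5) ℂ) a b = ∑ m ∈ c.support, c m * (t : ℂ) ^ m)
    (h : GL (Fin 5) ℂ) :
    ∃ (C : Matrix (Fin 4) (Fin 5) ℂ) (w : Fin 4 → ℤ),
      (∀ t : ℂˣ, C * (l t : Matrix (Fin 5) (Fin 5) ℂ) =
        Matrix.of fun i j => (t : ℂ) ^ (w i) * C i j) ∧
      mn (colv (C * (h : Matrix (Fin 5) (Fin 5) ℂ))) 15 ≠ 0 := by
  obtain ⟨s, P, h1, h2⟩ := weight_decomp l hl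
  let Q : ℤ → Matrix (Fin 5) (Fin 5) ℂ := fun m => ((h⁻¹ : GL (Fin 5) ℂ) : Matrix _ _ ℂ) * P m
  have hQ : ∑ m ∈ s, Q m * (h : Matrix (Fin 5) (Fin 5) ℂ) = 1 := by
    rw [← Finset.sum_mul, ← Finset.mul_sum, h1]; simp
  let r : Fin 5 → ℤ → Fin 5 → ℂ := fun a m => (Q m * (h : Matrix (Fin 5) (Fin 5) ℂ)) a
  have e : ∀ a, ∑ m ∈ s, r a m = (1 : Matrix (Fin 5) (Fin 5) ℂ) a := fun a => by
    rw [← hQ]
    funext b
    simp only [r, Finset.sum_apply, Matrix.sum_apply]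
  have e0 : dr (∑ m ∈ s, r 0 m) (∑ m ∈ s, r 1 m) (∑ m ∈ s, r 2 m) (∑ m ∈ s, r 3 m) ≠ 0 := by
    simp only [e]
    simp [dr, dt]
  obtain ⟨m0, k0, e1⟩ := pick (r 0) (fun x => dr x _ _ _) (fun x y => by simp [dr, dt]; ring) e0
  obtain ⟨m1, k1, e2⟩ := pick (r 1) (fun x => dr _ x _ _) (fun x y => by simp [dr, dt]; ring) e1
  obtain ⟨m2, k2, e3⟩ := pick (r 2) (fun x => dr _ _ x _) (fun x y => by simp [dr, dt]; ring) e2
  obtain ⟨m3, k3, e4⟩ := pick (r 3) (fun x => dr _ _ _ x) (fun x y => by simp [dr, dt]; ring) e3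
  have hq : ∀ m ∈ s, ∀ t : ℂˣ,
      Q m * (l t : Matrix (Fin 5) (Fin 5) ℂ) = ((t : ℂ) ^ m) • Q m := by
    intro m hm t
    simp only [Q]
    rw [Matrix.mul_assoc, h2 m hm, Matrix.mul_smul]
  refine ⟨Matrix.of ![Q m0 0, Q m1 1, Q m2 2, Q m3 3], ![m0, m1, m2, m3], fun t => ?_, ?_⟩
  · ext i j
    fin_cases i
    · simpa [Matrix.mul_apply] using congrFun (congrFun (hq m0 k0 t) 0) j
    · simpa [Matrix.mul_apply] using congrFun (congrFun (hq m1 k1 t) 1) j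
    · simpa [Matrix.mul_apply] using congrFun (congrFun (hq m2 k2 t) 2) j
    · simpa [Matrix.mul_apply] using congrFun (congrFun (hq m3 k3 t) 3) j
  · rw [mn_colv]
    exact e4

lemma neBot_units : (comap (fun t : ℂˣ => (t : ℂ)) (𝓝 0)).NeBot := by
  refine comap_neBot fun s hs => ?_
  have : (s ∩ {0}ᶜ).Nonempty := by
    have h := inter_mem_nhdsWithin ({0}ᶜ : Set ℂ) hs
    rw [Set.inter_comm] at h
    exact Filter.nonempty_of_mem (f := 𝓝[≠] (0 : ℂ)) h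
  obtain ⟨x, hx, hx0⟩ := this
  exact ⟨Units.mk0 x hx0, hx⟩

lemma not_hm_four (l : ℂˣ →* (Fin 3 → GL (Fin 5) ℂ))
    (hl : ∀ k a b, ∃ c : ℤ →₀ ℂ, ∀ t : ℂˣ,
      (l t k : Matrix (Fin 5) (Fin 5) ℂ) a b = ∑ m ∈ c.support, c m * (t : ℂ) ^ m)
    (h : Fin 3 → GL (Fin 5) ℂ) :
    ¬ Tendsto (fun t : ℂˣ => act (l t) T0) (comap (fun t : ℂˣ => (t : ℂ)) (𝓝 0))
      (𝓝 (act h (unitTensor 3 5 4))) := by
  intro hlim
  have := neBot_units
  have := fun k => exists_eigen4 ((Pi.evalMonoidHom (fun _ : Fin 3 => GL (Fin 5) ℂ) k).comp l)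
    (hl k) (h k)
  choose C w hC hne using this
  simp only [MonoidHom.comp_apply, Pi.evalMonoidHom_apply] at hC
  have h1 := ((continuous_ract C).tendsto _).comp hlim
  simp only [Function.comp_def, act_eq, ract_ract, hC] at h1
  have cc : Continuous fun (Z : (Fin 3 → Fin 4) → ℂ) (i j k : Fin 4) => Z ![i, j, k] := by
    fun_prop
  have h2 := (cc.tendsto _).comp h1
  refine no_limit (fun (t : ℂˣ) i => (t : ℂ) ^ w 0 i) (fun (t : ℂˣ) i => (t : ℂ) ^ w 1 i)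
    (fun (t : ℂˣ) i => (t : ℂ) ^ w 2 i) (colv (C 0)) (colv (C 1)) (colv (C 2)) _ _ _ (hne 0) (hne 1)
    (hne 2) _ _ (fun t i j k => ?_) (fun i j k => ?_) h2
  · simp only [Function.comp_def, ract_T0]
    simp [LT, colv, Fin.ofNat]
    ring
  · simp only [ract_unit_four]
    simp [LI, colv, Fin.ofNat]
    ring

/-- a flattening determinant -/
noncomputable def flat (X : (Fin 3 → Fin 5) → ℂ) : ℂ :=
  (Matrix.of fun i j : Fin 5 => X ![i, j, j]).det

lemma contFlat : Continuous flat :=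
  Continuous.matrix_det (continuous_matrix fun _ _ => continuous_apply _)

lemma flat_T0 (C : Fin 3 → Matrix (Fin 5) (Fin 5) ℂ) : flat (ract C T0) = 0 := by
  let W : Matrix (Fin 5) (Fin 5) ℂ := Matrix.of fun p j =>
    ![C 1 j 1 * C 2 j 0 + C 1 j 2 * C 2 j 2,
      C 1 j 0 * C 2 j 0 + C 1 j 1 * C 2 j 1 + C 1 j 2 * C 2 j 4,
      C 1 j 0 * C 2 j 1 + C 1 j 1 * C 2 j 2 + C 1 j 2 * C 2 j 3 + C 1 j 3 * C 2 j 3,
      C 1 j 3 * C 2 j 4 + C 1 j 2 * C 2 j 3, 0] p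
  have : (Matrix.of fun i j : Fin 5 => ract C T0 ![i, j, j]) = C 0 * W := by
    ext i j
    simp [ract_T0, W, Matrix.mul_apply, Fin.sum_univ_five]
    ring
  rw [flat, this, Matrix.det_mul, Matrix.det_eq_zero_of_row_eq_zero (A := W) 4 fun _ => rfl,
    mul_zero]

lemma flat_unit : flat (unitTensor 3 5 5) = 1 := by
  have : (Matrix.of fun i j : Fin 5 => unitTensor 3 5 5 ![i, j, j]) = 1 := by
    ext i j
    fin_cases i <;> fin_cases j <;>
      simp [unit_five, Pi.single_apply, funext_iff, Fin.forall_fin_succ]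
  rw [flat, this, Matrix.det_one]

lemma not_hm_five (l : ℂˣ → (Fin 3 → GL (Fin 5) ℂ)) (h : Fin 3 → GL (Fin 5) ℂ) :
    ¬ Tendsto (fun t : ℂˣ => act (l t) T0) (comap (fun t : ℂˣ => (t : ℂ)) (𝓝 0))
      (𝓝 (act h (unitTensor 3 5 5))) := by
  intro hlim
  have := neBot_units
  have h1 := ((continuous_ract fun k => (((h k)⁻¹ : GL (Fin 5) ℂ) :
    Matrix (Fin 5) (Fin 5) ℂ)).tendsto _).comp hlim
  simp only [Function.comp_def, act_eq, ract_ract, Units.inv_mul, ract_one] at h1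
  have h2 := (contFlat.tendsto _).comp h1
  simp only [Function.comp_def, flat_T0, flat_unit] at h2
  exact zero_ne_one (tendsto_nhds_unique tendsto_const_nhds h2)

lemma hm_le : hmSubrank T0 ≤ 3 := by
  apply csSup_le'
  rintro r ⟨hr, l, hl, h, hlim⟩
  by_contra hlt
  have : r = 4 ∨ r = 5 := by omega
  rcases this with rfl | rfl
  · exact not_hm_four l hl h hlim
  · exact not_hm_five l h hlim

theorem main : hmSubrank T0 < borderSubrank T0 :=
  lt_of_le_of_lt hm_le (lt_of_lt_of_le (by norm_num) four_le_border)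

end Pool.Agent.P.MP_5e02e7_ag.T3
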