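import Mathlib

/-! Tableau invariants of tensors of format four by four by four. -/

namespace Pool.Agent.P.MP_5e02e7_ag.T3

abbrev V := Fin 4 → ℂ

/-- determinant of four vectors -/
def dt (a b c d : V) : ℂ :=
  a 0 * (b 1 * (c 2 * d 3 - c 3 * d 2) - b 2 * (c 1 * d 3 - c 3 * d 1) + b 3 * (c 1 * d 2 - c 2 * d 1))
  - a 1 * (b 0 * (c 2 * d 3 - c 3 * d 2) - b 2 * (c 0 * d 3 - c 3 * d 0) + b 3 * (c 0 * d 2 - c 2 * d 0))
  + a 2 * (b 0 * (c 1 * d 3 - c 3 * d 1) - b 1 * (c 0 * d 3 - c 3 * d 0) + b 3 * (c 0 * d 1 - c 1 * d 0))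
  - a 3 * (b 0 * (c 1 * d 2 - c 2 * d 1) - b 1 * (c 0 * d 2 - c 2 * d 0) + b 2 * (c 0 * d 1 - c 1 * d 0))

/-- determinant of a list of four vectors, zero for other lengths -/
def D : List V → ℂ
  | [a, b, c, d] => dt a b c d
  | _ => 0

lemma D_len {l : List V} (h : l.length ≠ 4) : D l = 0 := by
  rcases l with _ | ⟨a, _ | ⟨b, _ | ⟨c, _ | ⟨d, _ | ⟨e, l⟩⟩⟩⟩⟩ <;> first | rfl | simp at h

lemma D_swap (pre l : List V) (u v : V) : D (pre ++ u :: v :: l) = -D (pre ++ v :: u :: l) := by
  by_cases h : pre.length + l.length = 2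
  · rcases pre with _ | ⟨a, _ | ⟨b, _ | ⟨c, pre⟩⟩⟩ <;>
      rcases l with _ | ⟨x, _ | ⟨y, _ | ⟨z, l⟩⟩⟩ <;>
      first | (exfalso; simp at h; done) | (exfalso; simp at h; omega) | (simp [D, dt]; ring)
  · rw [D_len (by simp; omega), D_len (by simp; omega), neg_zero]

lemma D_dup (pre l : List V) (u : V) : D (pre ++ u :: u :: l) = 0 := by
  have := D_swap pre l u u
  linear_combination this / 2

/-- standard basis vector -/
def ee (i : Fin 4) : V := Pi.single i 1

lemma D_lin (pre l : List V) (v : V) :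
    D (pre ++ v :: l) = ∑ i : Fin 4, v i * D (pre ++ ee i :: l) := by
  by_cases h : pre.length + l.length = 3
  · rcases pre with _ | ⟨a, _ | ⟨b, _ | ⟨c, _ | ⟨d, pre⟩⟩⟩⟩ <;>
      rcases l with _ | ⟨x, _ | ⟨y, _ | ⟨z, _ | ⟨w, l⟩⟩⟩⟩ <;>
      first | (exfalso; simp at h; done) | (exfalso; simp at h; omega) |
        (simp [D, dt, ee, Fin.sum_univ_four, Pi.single_apply]; ring)
  · rw [D_len (by simp; omega)]
    refine (Finset.sum_eq_zero fun i _ => ?_).symm
    rw [D_len (by simp; omega), mul_zero]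

abbrev St := ℕ → List V

/-- put a vector on top of a column -/
def push (s : St) (c : ℕ) (v : V) : St := Function.update s c (v :: s c)

/-- the tableau polynomial, with partially filled columns -/
noncomputable def tab (n : ℕ) (X : Fin 4 → Fin 4 → Fin 4 → ℂ) : List (ℕ × ℕ × ℕ) → St → ℂ
  | [], s => ∏ c ∈ Finset.range n, D (s c)
  | b :: bs, s => ∑ i, ∑ j, ∑ k, X i j k *
      tab n X bs (push (push (push s b.1 (ee i)) b.2.1 (ee j)) b.2.2 (ee k))

lemma tab_cont (n : ℕ) (bs : List (ℕ × ℕ × ℕ)) (s : St) : Continuous fun X => tab n X bs s := by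
  induction bs generalizing s with
  | nil => exact continuous_const
  | cons b bs ih =>
    simp only [tab]
    refine continuous_finsetSum _ fun i _ => continuous_finsetSum _ fun j _ =>
      continuous_finsetSum _ fun k _ => Continuous.mul ?_ (ih _)
    fun_prop

/-- a linear relation between states that differ in one column -/
def Rel {ι : Type} [Fintype ι] (c : ℕ) (α : ι → ℂ) (s : St) (t : ι → St) : Prop :=
  (∀ i c', c' ≠ c → t i c' = s c') ∧ ∀ pre, D (pre ++ s c) = ∑ i, α i * D (pre ++ t i c)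

lemma Rel.push {ι : Type} [Fintype ι] {c : ℕ} {α : ι → ℂ} {s : St} {t : ι → St}
    (h : Rel c α s t) (c' : ℕ) (v : V) : Rel c α (push s c' v) fun i => push (t i) c' v := by
  refine ⟨fun i x hx => ?_, fun pre => ?_⟩
  · by_cases e : x = c'
    · subst e; simp [T3.push, h.1 i x hx]
    · simp [T3.push, Function.update_of_ne e, h.1 i x hx]
  · by_cases e : c = c'
    · subst e
      have := h.2 (pre ++ [v])
      simpa [T3.push] using this
    · simpa [T3.push, Function.update_of_ne e] using h.2 pre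

/-- functions of the state that respect these relations -/
def Compat (n : ℕ) (Φ : St → ℂ) : Prop :=
  ∀ (ι : Type) [Fintype ι] (c : ℕ) (α : ι → ℂ) (s : St) (t : ι → St), c < n → Rel c α s t →
    Φ s = ∑ i, α i * Φ (t i)

lemma Compat.push {n : ℕ} {Φ : St → ℂ} (h : Compat n Φ) (c : ℕ) (v : V) :
    Compat n fun s => Φ (push s c v) :=
  fun ι _ c' α _ _ hc hr => h ι c' α _ _ hc (hr.push c v)

lemma compat_tab (n : ℕ) (X : Fin 4 → Fin 4 → Fin 4 → ℂ) (bs : List (ℕ × ℕ × ℕ)) :
    Compat n (tab n X bs) := by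
  induction bs with
  | nil =>
    intro ι _ c α s t hc hr
    have hm := Finset.mem_range.2 hc
    simp only [tab]
    have e : ∀ i, ∏ x ∈ Finset.range n, D (t i x) =
        D (t i c) * ∏ x ∈ (Finset.range n).erase c, D (s x) := by
      intro i
      rw [← Finset.mul_prod_erase _ _ hm]
      congr 1
      exact Finset.prod_congr rfl fun x hx => by rw [hr.1 i x (Finset.ne_of_mem_erase hx)]
    rw [← Finset.mul_prod_erase _ _ hm]
    have h0 := hr.2 []
    simp only [List.nil_append] at h0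
    rw [h0, Finset.sum_mul]
    exact Finset.sum_congr rfl fun i _ => by rw [e, mul_assoc]
  | cons b bs ih =>
    intro ι _ c α s t hc hr
    simp only [tab]
    have e : ∀ i j k, tab n X bs (push (push (push s b.1 (ee i)) b.2.1 (ee j)) b.2.2 (ee k)) =
        ∑ x, α x * tab n X bs (push (push (push (t x) b.1 (ee i)) b.2.1 (ee j)) b.2.2 (ee k)) :=
      fun i j k => ih ι c α _ _ hc (((hr.push _ _).push _ _).push _ _)
    simp only [e, Finset.mul_sum]
    rw [Finset.sum_comm (β := ℂ) (s := Finset.univ (α := ι))]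
    refine Finset.sum_congr rfl fun i _ => ?_
    rw [Finset.sum_comm (β := ℂ) (s := Finset.univ (α := ι))]
    refine Finset.sum_congr rfl fun j _ => ?_
    rw [Finset.sum_comm (β := ℂ) (s := Finset.univ (α := ι))]
    refine Finset.sum_congr rfl fun k _ => Finset.sum_congr rfl fun x _ => by ring

lemma Compat.lin {n : ℕ} {Φ : St → ℂ} (h : Compat n Φ) {c : ℕ} (hc : c < n) (s : St) (v : V) :
    Φ (T3.push s c v) = ∑ i, v i * Φ (T3.push s c (ee i)) := by
  refine h (Fin 4) c v _ (fun i => T3.push s c (ee i)) hc ⟨fun i x hx => ?_, fun pre => ?_⟩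
  · simp [T3.push, Function.update_of_ne hx]
  · simpa [T3.push] using D_lin pre (s c) v

/-- One step of the expansion along any decomposition of the tensor. -/
lemma tab_step {n : ℕ} {X : Fin 4 → Fin 4 → Fin 4 → ℂ} (A B C : ℕ → V) (L : List (ℕ × ℕ × ℕ))
    (hX : ∀ i j k, X i j k = (L.map fun e => A e.1 i * B e.2.1 j * C e.2.2 k).sum)
    (b : ℕ × ℕ × ℕ) (h1 : b.1 < n) (h2 : b.2.1 < n) (h3 : b.2.2 < n) (bs : List (ℕ × ℕ × ℕ))
    (s : St) : tab n X (b :: bs) s = (L.map fun e =>
      tab n X bs (push (push (push s b.1 (A e.1)) b.2.1 (B e.2.1)) b.2.2 (C e.2.2))).sum := by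
  have hc := compat_tab n X bs
  have e : ∀ u v w : V, tab n X bs (push (push (push s b.1 u) b.2.1 v) b.2.2 w) =
      ∑ i, ∑ j, ∑ k, u i * v j * w k *
        tab n X bs (push (push (push s b.1 (ee i)) b.2.1 (ee j)) b.2.2 (ee k)) := by
    intro u v w
    rw [((hc.push b.2.2 w).push b.2.1 v).lin h1 s u]
    refine Finset.sum_congr rfl fun i _ => ?_
    rw [(hc.push b.2.2 w).lin h2 _ v, Finset.mul_sum]
    refine Finset.sum_congr rfl fun j _ => ?_
    rw [hc.lin h3 _ w, Finset.mul_sum, Finset.mul_sum]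
    exact Finset.sum_congr rfl fun k _ => by ring
  rw [tab]
  generalize tab n X bs = Φ at e
  have e2 : (L.map fun e => Φ (push (push (push s b.1 (A e.1)) b.2.1 (B e.2.1)) b.2.2 (C e.2.2))) =
      L.map fun x => ∑ i, ∑ j, ∑ k, A x.1 i * B x.2.1 j * C x.2.2 k *
        Φ (push (push (push s b.1 (ee i)) b.2.1 (ee j)) b.2.2 (ee k)) :=
    List.map_congr_left fun x _ => e _ _ _
  rw [e2]
  simp only [hX]
  clear e e2 hX hc
  induction L with
  | nil => simp
  | cons x L ih =>
    simp only [List.map_cons, List.sum_cons, add_mul, Finset.sum_add_distrib, ih]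

end Pool.Agent.P.MP_5e02e7_ag.T3
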